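import Pool.Agent.Helper66.KPP.Mild

/-!
# Comparison and existence for mild solutions
-/

open MeasureTheory Filter Topology Set
open scoped RealInnerProductSpace

set_option linter.unusedSectionVars false
set_option linter.style.haveILetI false
set_option linter.unusedVariables false

namespace Pool.Agent.Helper66.KPP

section Compare

variable {E : Type*} [NormedAddCommGroup E] [InnerProductSpace ℝ E] [FiniteDimensional ℝ E]
  [MeasurableSpace E] [BorelSpace E]

theorem Duh_mono (a : ℝ) {q r : ℝ → E → ℝ} (hq : BM q) (hr : BM r) {t : ℝ} (ht : 0 ≤ t)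
    (h : ∀ s, 0 ≤ s → s ≤ t → ∀ y, q s y ≤ r s y) (x : E) : Duh a q t x ≤ Duh a r t x := by
  obtain ⟨M, hM⟩ := hq.2
  obtain ⟨M', hM'⟩ := hr.2
  unfold Duh
  refine intervalIntegral.integral_mono_on ht (hq.intble (by fun_prop) x (by fun_prop) _ _)
    (hr.intble (by fun_prop) x (by fun_prop) _ _) fun s hs => ?_
  exact mul_le_mul_of_nonneg_left
    (P_mono (hq.meas s) (hr.meas s) (hM s) (hM' s) (h s hs.1 hs.2) _ _) (Real.exp_pos _).le

theorem Duh_nonneg (a : ℝ) {q : ℝ → E → ℝ} {t : ℝ} (ht : 0 ≤ t)
    (h : ∀ s, 0 ≤ s → s ≤ t → ∀ y, 0 ≤ q s y) (x : E) : 0 ≤ Duh a q t x := by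
  unfold Duh
  refine intervalIntegral.integral_nonneg ht fun s hs => ?_
  exact mul_nonneg (Real.exp_pos _).le (P_nonneg (h s hs.1 hs.2) _ _)

theorem Duh_nonpos (a : ℝ) {q : ℝ → E → ℝ} (hq : BM q) {t : ℝ} (ht : 0 ≤ t)
    (h : ∀ s, 0 ≤ s → s ≤ t → ∀ y, q s y ≤ 0) (x : E) : Duh a q t x ≤ 0 := by
  have h0 : BM (fun (_ : ℝ) (_ : E) => (0:ℝ)) := ⟨measurable_const, 0, fun _ _ => by simp⟩
  have := Duh_mono a hq h0 ht h x
  have e : Duh a (fun (_ : ℝ) (_ : E) => (0:ℝ)) t x = 0 := by
    unfold Duh
    simp [P_const]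
  rwa [e] at this

theorem IsDuh.nonneg {w0 : E → ℝ} {q w : ℝ → E → ℝ} {L : ℝ} (hL : 0 ≤ L)
    (h : IsDuh 0 w0 q w) (hw0 : Measurable w0) {M0 : ℝ} (hM0 : ∀ x, |w0 x| ≤ M0)
    (hq : BM q) (hw : BM w) (h0 : ∀ x, 0 ≤ w0 x)
    (hc : ∀ s, 0 ≤ s → ∀ y, 2 * L * min (w s y) 0 ≤ q s y + L * w s y) :
    ∀ t, 0 ≤ t → ∀ x, 0 ≤ w t x := by
  obtain ⟨M, hM⟩ := hw.2
  have hM00 : 0 ≤ M := (abs_nonneg _).trans (hM 0 0)
  have hs := h.shift L hw0 hM0 hq hw
  rw [sub_zero] at hs
  have hqw : BM fun s y => q s y + L * w s y := hq.add (hw.const_mul L)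
  obtain ⟨M', hM'⟩ := hqw.2
  set lam : ℝ := 4 * L + 1 with hlam
  have hlam0 : 0 < lam := by positivity
  have key : ∀ k : ℕ, ∀ t, 0 ≤ t → ∀ x, -(M / 2 ^ k) * Real.exp (lam * t) ≤ w t x := by
    intro k
    induction k with
    | zero =>
      intro t ht x
      have h1 : 1 ≤ Real.exp (lam * t) := Real.one_le_exp (by positivity)
      have h2 := (abs_le.1 (hM t x)).1
      simp only [pow_zero, div_one]
      nlinarith
    | succ k ih =>
      intro t ht x
      rw [hs t ht x]
      have h1 : 0 ≤ Real.exp (-L * t) * P t w0 x := mul_nonneg (Real.exp_pos _).le (P_nonneg h0 _ _)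
      have h2 : ∫ s in (0:ℝ)..t, -(2 * L * (M / 2 ^ k)) * Real.exp (lam * s) ≤
          Duh L (fun s y => q s y + L * w s y) t x := by
        unfold Duh
        refine intervalIntegral.integral_mono_on ht
          (Continuous.intervalIntegrable (by fun_prop) _ _)
          (hqw.intble (by fun_prop) x (by fun_prop) _ _) fun s hs' => ?_
        have hc1 : ∀ y, -(2 * L * (M / 2 ^ k)) * Real.exp (lam * s) ≤ q s y + L * w s y := by
          intro y
          refine le_trans ?_ (hc s hs'.1 y)
          have h3 : -(M / 2 ^ k) * Real.exp (lam * s) ≤ min (w s y) 0 := by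
            refine le_min (ih s hs'.1 y) ?_
            have : 0 ≤ (M / 2 ^ k) * Real.exp (lam * s) := by positivity
            linarith
          have := mul_le_mul_of_nonneg_left h3 (by positivity : 0 ≤ 2 * L)
          linarith
        have h4 := const_le_P (hqw.meas s) (hM' s) hc1 (t - s) x
        have h5 : -(2 * L * (M / 2 ^ k)) * Real.exp (lam * s) ≤ 0 := by
          have : 0 ≤ (2 * L * (M / 2 ^ k)) * Real.exp (lam * s) := by positivity
          linarith
        have h6 : Real.exp (-L * (t - s)) ≤ 1 := by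
          rw [Real.exp_le_one_iff]
          have := mul_nonneg hL (sub_nonneg.2 hs'.2)
          linarith
        have h7 := Real.exp_pos (-L * (t - s))
        nlinarith
      have h3 : ∫ s in (0:ℝ)..t, -(2 * L * (M / 2 ^ k)) * Real.exp (lam * s) =
          -(2 * L * (M / 2 ^ k)) * ((Real.exp (lam * t) - 1) / lam) := by
        rw [intervalIntegral.integral_const_mul]
        congr 1
        have hd : ∀ s ∈ uIcc 0 t, HasDerivAt (fun s => Real.exp (lam * s) / lam)
            (Real.exp (lam * s)) s := by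
          intro s _
          have h0 : HasDerivAt (fun s => lam * s) lam s := by
            have := (hasDerivAt_id s).const_mul lam
            simpa using this
          have h1 := h0.exp.div_const lam
          refine h1.congr_deriv ?_
          field_simp
        rw [intervalIntegral.integral_eq_sub_of_hasDerivAt hd
          (Continuous.intervalIntegrable (by fun_prop) _ _)]
        simp only [mul_zero, Real.exp_zero]
        ring
      rw [h3] at h2
      have h4 : 2 * L / lam ≤ 1 / 2 := by
        rw [div_le_div_iff₀ hlam0 (by norm_num)]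
        linarith
      have h5 : (2 * L * (M / 2 ^ k)) * ((Real.exp (lam * t) - 1) / lam) ≤
          M / 2 ^ (k + 1) * Real.exp (lam * t) := by
        have e1 : (2 * L * (M / 2 ^ k)) * ((Real.exp (lam * t) - 1) / lam) =
            (2 * L / lam) * ((M / 2 ^ k) * (Real.exp (lam * t) - 1)) := by
          field_simp
        have h6 : 0 ≤ (M / 2 ^ k) * (Real.exp (lam * t) - 1) := by
          have : 1 ≤ Real.exp (lam * t) := Real.one_le_exp (by positivity)
          exact mul_nonneg (by positivity) (by linarith)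
        have e2 : M / 2 ^ (k + 1) = (M / 2 ^ k) / 2 := by
          rw [pow_succ]; field_simp
        rw [e1, e2]
        have h7 := mul_le_mul_of_nonneg_right h4 h6
        have h8 : 0 ≤ M / 2 ^ k := by positivity
        nlinarith
      linarith
  intro t ht x
  have hlim : Tendsto (fun k : ℕ => -(M / 2 ^ k) * Real.exp (lam * t)) atTop (𝓝 0) := by
    have h1 : Tendsto (fun k : ℕ => M * (1 / 2 : ℝ) ^ k) atTop (𝓝 (M * 0)) :=
      (tendsto_pow_atTop_nhds_zero_of_lt_one (by norm_num) (by norm_num)).const_mul M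
    have h2 : Tendsto (fun k : ℕ => -(M * (1 / 2 : ℝ) ^ k) * Real.exp (lam * t)) atTop
        (𝓝 (-(M * 0) * Real.exp (lam * t))) := h1.neg.mul_const _
    simp only [mul_zero, neg_zero, zero_mul] at h2
    refine h2.congr fun k => ?_
    congr 2
    rw [one_div, inv_pow]
    rfl
  exact le_of_tendsto' hlim fun k => key k t ht x

theorem IsDuh.le_exp {w0 : E → ℝ} {q w : ℝ → E → ℝ} {L : ℝ}
    (h : IsDuh 0 w0 q w) (hw0 : Measurable w0) {M0 : ℝ} (hM0 : ∀ x, |w0 x| ≤ M0)
    (hq : BM q) (hw : BM w) (hc : ∀ s, 0 ≤ s → ∀ y, q s y ≤ L * w s y) {t : ℝ} (ht : 0 ≤ t)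
    (x : E) : w t x ≤ Real.exp (L * t) * P t w0 x := by
  have hs := h.shift (-L) hw0 hM0 hq hw t ht x
  have h1 : Duh (-L) (fun s y => q s y + (-L - 0) * w s y) t x ≤ 0 := by
    refine Duh_nonpos _ (hq.add (hw.const_mul _)) ht (fun s hs _ y => ?_) x
    have := hc s hs y
    linarith
  rw [hs, neg_neg]
  linarith

/-- what we use about the nonlinearity -/
structure NL (f : ℝ → ℝ) (L : ℝ) : Prop where
  hL : 0 ≤ L
  lip : ∀ s s', |f s - f s'| ≤ L * |s - s'|
  zero : f 0 = 0
  one : f 1 = 0
  low : ∀ θ, 0 < θ → θ < 1 → ∃ κ > 0, ∀ s, 0 ≤ s → s ≤ θ → κ * s * (θ - s) ≤ f s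

theorem NL.continuous {f : ℝ → ℝ} {L : ℝ} (h : NL f L) : Continuous f := by
  have : LipschitzWith ⟨L, h.hL⟩ f := LipschitzWith.of_dist_le_mul fun x y => by
    rw [Real.dist_eq, Real.dist_eq]; exact h.lip x y
  exact this.continuous

theorem NL.mono {f : ℝ → ℝ} {L : ℝ} (h : NL f L) {s s' : ℝ} (hs : s ≤ s') :
    f s + L * s ≤ f s' + L * s' := by
  have := (abs_le.1 (h.lip s' s)).1
  rw [abs_of_nonneg (sub_nonneg.2 hs)] at this
  linarith

theorem bm_comp {f : ℝ → ℝ} (hf : Continuous f) {u : ℝ → E → ℝ}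
    (hu : Measurable (Function.uncurry u)) (h01 : ∀ t x, u t x ∈ Icc (0:ℝ) 1) :
    BM fun s y => f (u s y) := by
  refine ⟨hf.measurable.comp hu, ?_⟩
  obtain ⟨C, hC⟩ := (isCompact_Icc (a := (0:ℝ)) (b := 1)).exists_bound_of_continuousOn hf.continuousOn
  exact ⟨C, fun s y => hC _ (h01 s y)⟩

theorem tendsto_Duh (a : ℝ) {q : ℕ → ℝ → E → ℝ} {r : ℝ → E → ℝ} (hq : ∀ k, BM (q k)) (hr : BM r)
    {M : ℝ} (hM : ∀ k s y, |q k s y| ≤ M) (hlim : ∀ s y, Tendsto (fun k => q k s y) atTop (𝓝 (r s y)))
    (t : ℝ) (x : E) : Tendsto (fun k => Duh a (q k) t x) atTop (𝓝 (Duh a r t x)) := by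
  unfold Duh
  refine intervalIntegral.tendsto_integral_filter_of_dominated_convergence
    (fun s => Real.exp (-a * (t - s)) * M) (Eventually.of_forall fun k => ?_)
    (Eventually.of_forall fun k => Eventually.of_forall fun s _ => ?_)
    (Continuous.intervalIntegrable (by fun_prop) _ _) (Eventually.of_forall fun s _ => ?_)
  · refine Measurable.aestronglyMeasurable ?_
    exact Measurable.mul (by fun_prop) ((hq k).measurable_P (by fun_prop) x)
  · rw [norm_mul, Real.norm_eq_abs, Real.abs_exp]
    refine mul_le_mul_of_nonneg_left ?_ (Real.exp_pos _).le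
    rw [Real.norm_eq_abs]
    exact P_abs_le (hM k s) _ _
  · refine Tendsto.const_mul _ ?_
    unfold P
    refine tendsto_integral_of_dominated_convergence (fun _ => M) (fun k => ?_)
      (integrable_const _) (fun k => Eventually.of_forall fun z => ?_)
      (Eventually.of_forall fun z => hlim s _)
    · exact (measurable_shift ((hq k).meas s) x _).aestronglyMeasurable
    · rw [Real.norm_eq_abs]; exact hM k s _

/-- internal notion of mild solution; the initial datum is `u 0` -/
structure Mild (f : ℝ → ℝ) (u : ℝ → E → ℝ) : Prop where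
  meas : Measurable (Function.uncurry u)
  mem : ∀ t x, u t x ∈ Icc (0:ℝ) 1
  duh : IsDuh 0 (u 0) (fun s y => f (u s y)) u

theorem abs_le_one_of_mem {s : ℝ} (h : s ∈ Icc (0:ℝ) 1) : |s| ≤ 1 := by
  rw [abs_of_nonneg h.1]; exact h.2

theorem Mild.bm {f : ℝ → ℝ} {u : ℝ → E → ℝ} (h : Mild f u) : BM u :=
  ⟨h.meas, 1, fun s y => abs_le_one_of_mem (h.mem s y)⟩

theorem Mild.meas_slice {f : ℝ → ℝ} {u : ℝ → E → ℝ} (h : Mild f u) (t : ℝ) : Measurable (u t) :=
  h.bm.meas t

theorem Mild.restart {f : ℝ → ℝ} (hf : Continuous f) {u : ℝ → E → ℝ} (h : Mild f u)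
    {s : ℝ} (hs : 0 ≤ s) : Mild f fun t => u (s + t) := by
  refine ⟨?_, fun t x => h.mem _ _, ?_⟩
  · exact h.meas.comp ((measurable_const.add measurable_fst).prodMk measurable_snd)
  · have := h.duh.restart (h.meas_slice 0) (fun x => abs_le_one_of_mem (h.mem 0 x))
      (bm_comp hf h.meas h.mem) hs
    simpa using this

theorem Mild.translate {f : ℝ → ℝ} {u : ℝ → E → ℝ} (h : Mild f u) (v : E) :
    Mild f fun t x => u t (x + v) := by
  refine ⟨?_, fun t x => h.mem _ _, ?_⟩
  · exact h.meas.comp (measurable_fst.prodMk (measurable_snd.add measurable_const))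
  · intro t ht x
    have := h.duh t ht (x + v)
    simp only
    rw [this, P_translate]
    congr 1
    unfold Duh
    refine intervalIntegral.integral_congr fun s _ => ?_
    try simp only
    rw [← P_translate]

/-- iteration for existence -/
noncomputable def iter (f : ℝ → ℝ) (L : ℝ) (u0 : E → ℝ) : ℕ → ℝ → E → ℝ
  | 0 => fun _ _ => 0
  | k + 1 => fun t x => if 0 ≤ t then Real.exp (-L * t) * P t u0 x +
      Duh L (fun s y => f (iter f L u0 k s y) + L * iter f L u0 k s y) t x else 0

theorem iter_props {f : ℝ → ℝ} {L : ℝ} (hf : NL f L) {u0 : E → ℝ} (hu0 : Measurable u0)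
    (h01 : ∀ x, u0 x ∈ Icc (0:ℝ) 1) (k : ℕ) :
    Measurable (Function.uncurry (iter f L u0 k)) ∧ ∀ t x, iter f L u0 k t x ∈ Icc (0:ℝ) 1 := by
  induction k with
  | zero =>
    refine ⟨measurable_const, fun t x => ?_⟩
    simp [iter]
  | succ k ih =>
    obtain ⟨ih1, ih2⟩ := ih
    have hFc : Continuous fun s => f s + L * s := hf.continuous.add (continuous_const.mul continuous_id)
    have hbm : BM fun s y => f (iter f L u0 k s y) + L * iter f L u0 k s y := bm_comp hFc ih1 ih2
    constructor
    · have h1 : Measurable fun p : ℝ × E => if 0 ≤ p.1 then Real.exp (-L * p.1) * P p.1 u0 p.2 else 0 := by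
        refine Measurable.ite (measurableSet_le measurable_const measurable_fst) ?_ measurable_const
        refine Measurable.mul (by fun_prop) ?_
        exact measurable_P measurable_fst (hu0.comp measurable_snd) measurable_snd
      have h2 := h1.add (measurable_Duh L hbm)
      have h3 : Function.uncurry (iter f L u0 (k + 1)) =
          (fun p : ℝ × E => if 0 ≤ p.1 then Real.exp (-L * p.1) * P p.1 u0 p.2 else 0) +
          Function.uncurry fun t x => if 0 ≤ t then
            Duh L (fun s y => f (iter f L u0 k s y) + L * iter f L u0 k s y) t x else 0 := by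
        funext p
        obtain ⟨t, x⟩ := p
        simp only [Function.uncurry, Pi.add_apply, iter]
        split_ifs <;> simp
      rw [h3]
      exact h2
    · intro t x
      simp only [iter]
      split_ifs with ht
      · have hP := const_le_P hu0 (fun x => abs_le_one_of_mem (h01 x)) (fun x => (h01 x).1) t x
        have hP' := P_le_const hu0 (fun x => abs_le_one_of_mem (h01 x)) (fun x => (h01 x).2) t x
        have hF0 : ∀ s y, 0 ≤ f (iter f L u0 k s y) + L * iter f L u0 k s y := by
          intro s y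
          have := hf.mono (ih2 s y).1
          rw [hf.zero] at this
          linarith
        have hF1 : ∀ s y, f (iter f L u0 k s y) + L * iter f L u0 k s y ≤ L := by
          intro s y
          have := hf.mono (ih2 s y).2
          rw [hf.one] at this
          linarith
        have hD0 := Duh_nonneg L ht (fun s _ _ y => hF0 s y) x
        have hbL : BM (fun (_ : ℝ) (_ : E) => L) := ⟨measurable_const, |L|, fun _ _ => le_rfl⟩
        have hD1 := Duh_mono L hbm hbL ht (fun s _ _ y => hF1 s y) x
        have hD2 : Duh L (fun (_ : ℝ) (_ : E) => L) t x = 1 - Real.exp (-L * t) := by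
          unfold Duh
          simp only [P_const]
          have hd : ∀ s ∈ uIcc 0 t, HasDerivAt (fun s => Real.exp (-L * (t - s)))
              (Real.exp (-L * (t - s)) * L) s := by
            intro s _
            have h0 : HasDerivAt (fun s => -L * (t - s)) L s := by
              have := ((hasDerivAt_id s).const_sub t).const_mul (-L)
              simpa using this
            exact h0.exp
          rw [intervalIntegral.integral_eq_sub_of_hasDerivAt hd
            (Continuous.intervalIntegrable (by fun_prop) _ _)]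
          simp
        rw [hD2] at hD1
        have h3 := Real.exp_pos (-L * t)
        constructor
        · have := mul_nonneg h3.le hP
          linarith
        · have := mul_le_mul_of_nonneg_left hP' h3.le
          linarith
      · simp

theorem iter_mono {f : ℝ → ℝ} {L : ℝ} (hf : NL f L) {u0 : E → ℝ} (hu0 : Measurable u0)
    (h01 : ∀ x, u0 x ∈ Icc (0:ℝ) 1) (k : ℕ) (t : ℝ) (x : E) :
    iter f L u0 k t x ≤ iter f L u0 (k + 1) t x := by
  induction k generalizing t x with
  | zero =>
    have := (iter_props hf hu0 h01 1).2 t x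
    simpa [iter] using this.1
  | succ k ih =>
    have hFc : Continuous fun s => f s + L * s := hf.continuous.add (continuous_const.mul continuous_id)
    have h1 := iter_props hf hu0 h01 k
    have h2 := iter_props hf hu0 h01 (k + 1)
    have hbm1 : BM fun s y => f (iter f L u0 k s y) + L * iter f L u0 k s y := bm_comp hFc h1.1 h1.2
    have hbm2 : BM fun s y => f (iter f L u0 (k+1) s y) + L * iter f L u0 (k+1) s y :=
      bm_comp hFc h2.1 h2.2
    simp only [iter]
    split_ifs with ht
    · have := Duh_mono L hbm1 hbm2 ht (fun s _ _ y => hf.mono (ih s y)) x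
      exact add_le_add le_rfl this
    · exact le_rfl

theorem exists_mild {f : ℝ → ℝ} {L : ℝ} (hf : NL f L) {u0 : E → ℝ} (hu0 : Measurable u0)
    (h01 : ∀ x, u0 x ∈ Icc (0:ℝ) 1) : ∃ u : ℝ → E → ℝ, Mild f u ∧ u 0 = u0 := by
  have hFc : Continuous fun s => f s + L * s := hf.continuous.add (continuous_const.mul continuous_id)
  set v : ℝ → E → ℝ := fun t x => ⨆ k, iter f L u0 k t x with hv
  have hbdd : ∀ t x, BddAbove (range fun k => iter f L u0 k t x) := by
    intro t x
    refine ⟨1, ?_⟩
    rintro _ ⟨k, rfl⟩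
    exact ((iter_props hf hu0 h01 k).2 t x).2
  have hmono : ∀ t x, Monotone fun k => iter f L u0 k t x := fun t x =>
    monotone_nat_of_le_succ fun k => iter_mono hf hu0 h01 k t x
  have hlim : ∀ t x, Tendsto (fun k => iter f L u0 k t x) atTop (𝓝 (v t x)) := fun t x =>
    tendsto_atTop_ciSup (hmono t x) (hbdd t x)
  have hmem : ∀ t x, v t x ∈ Icc (0:ℝ) 1 := fun t x =>
    isClosed_Icc.mem_of_tendsto (hlim t x) (Eventually.of_forall fun k =>
      (iter_props hf hu0 h01 k).2 t x)
  have hmeas : Measurable (Function.uncurry v) := by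
    refine measurable_of_tendsto_metrizable (f := fun k => Function.uncurry (iter f L u0 k))
      (fun k => (iter_props hf hu0 h01 k).1) ?_
    rw [tendsto_pi_nhds]
    rintro ⟨t, x⟩
    exact hlim t x
  have hvbm : BM v := ⟨hmeas, 1, fun s y => abs_le_one_of_mem (hmem s y)⟩
  have hbm : BM fun s y => f (v s y) + L * v s y := bm_comp hFc hmeas hmem
  have hD : IsDuh L u0 (fun s y => f (v s y) + L * v s y) v := by
    intro t ht x
    obtain ⟨C, hC⟩ := (isCompact_Icc (a := (0:ℝ)) (b := 1)).exists_bound_of_continuousOn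
      hFc.continuousOn
    have h1 := tendsto_Duh L (q := fun k s y => f (iter f L u0 k s y) + L * iter f L u0 k s y)
      (r := fun s y => f (v s y) + L * v s y)
      (fun k => bm_comp hFc (iter_props hf hu0 h01 k).1 (iter_props hf hu0 h01 k).2) hbm
      (M := C) (fun k s y => hC _ ((iter_props hf hu0 h01 k).2 s y))
      (fun s y => (hFc.tendsto _).comp (hlim s y)) t x
    have h2 : Tendsto (fun k => iter f L u0 (k + 1) t x) atTop (𝓝 (v t x)) :=
      (hlim t x).comp (tendsto_add_atTop_nat 1)
    have h3 : Tendsto (fun k => iter f L u0 (k + 1) t x) atTop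
        (𝓝 (Real.exp (-L * t) * P t u0 x + Duh L (fun s y => f (v s y) + L * v s y) t x)) := by
      refine (h1.const_add (Real.exp (-L * t) * P t u0 x)).congr fun k => ?_
      simp only [iter]
      rw [if_pos (show 0 ≤ t from ht)]
    exact tendsto_nhds_unique h2 h3
  have hu0b : ∀ x, |u0 x| ≤ 1 := fun x => abs_le_one_of_mem (h01 x)
  have h0 : v 0 = u0 := by
    funext x
    rw [hD 0 le_rfl x]
    simp [P_zero, Duh]
  refine ⟨v, ⟨hmeas, hmem, ?_⟩, h0⟩
  have := hD.shift 0 hu0 hu0b hbm hvbm
  rw [h0]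
  have e : (fun s y => f (v s y) + L * v s y + (0 - L) * v s y) = fun s y => f (v s y) := by
    funext s y; ring
  rwa [e] at this

theorem Mild.sub_isDuh {f : ℝ → ℝ} {L : ℝ} (hf : NL f L) {u v : ℝ → E → ℝ} (hu : Mild f u)
    (hv : Mild f v) : IsDuh 0 (fun y => u 0 y - v 0 y) (fun s y => f (u s y) - f (v s y))
      (fun s y => u s y - v s y) := by
  intro t ht x
  have h1 := hu.duh t ht x
  have h2 := hv.duh t ht x
  obtain ⟨M, hM⟩ := (bm_comp hf.continuous hu.meas hu.mem).2
  obtain ⟨M', hM'⟩ := (bm_comp hf.continuous hv.meas hv.mem).2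
  have h3 : Duh 0 (fun s y => f (u s y) - f (v s y)) t x =
      Duh 0 (fun s y => f (u s y)) t x - Duh 0 (fun s y => f (v s y)) t x := by
    unfold Duh
    rw [← intervalIntegral.integral_sub]
    · refine intervalIntegral.integral_congr fun s _ => ?_
      try simp only
      rw [P_sub ((bm_comp hf.continuous hu.meas hu.mem).meas s)
        ((bm_comp hf.continuous hv.meas hv.mem).meas s) (hM s) (hM' s)]
      ring
    · exact (bm_comp hf.continuous hu.meas hu.mem).intble (by fun_prop) x (by fun_prop) _ _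
    · exact (bm_comp hf.continuous hv.meas hv.mem).intble (by fun_prop) x (by fun_prop) _ _
  simp only
  rw [h3, P_sub (hu.meas_slice 0) (hv.meas_slice 0) (fun x => abs_le_one_of_mem (hu.mem 0 x))
    (fun x => abs_le_one_of_mem (hv.mem 0 x)), h1, h2]
  ring

theorem Mild.sub_abs_le {f : ℝ → ℝ} {u v : ℝ → E → ℝ} (hu : Mild f u)
    (hv : Mild f v) (t : ℝ) (x : E) : |u t x - v t x| ≤ 2 := by
  have a1 := hu.mem t x
  have a2 := hv.mem t x
  rw [abs_le]; constructor <;> linarith [a1.1, a1.2, a2.1, a2.2]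

/-- Comparison principle for mild solutions. -/
theorem Mild.le_of_le {f : ℝ → ℝ} {L : ℝ} (hf : NL f L) {u v : ℝ → E → ℝ} (hu : Mild f u)
    (hv : Mild f v) (h0 : ∀ x, v 0 x ≤ u 0 x) {t : ℝ} (ht : 0 ≤ t) (x : E) : v t x ≤ u t x := by
  have := (Mild.sub_isDuh hf hu hv).nonneg hf.hL ((hu.meas_slice 0).sub (hv.meas_slice 0)) (M0 := 2)
    (fun x => Mild.sub_abs_le hu hv 0 x)
    ((bm_comp hf.continuous hu.meas hu.mem).sub (bm_comp hf.continuous hv.meas hv.mem))
    (hu.bm.sub hv.bm) (fun x => sub_nonneg.2 (h0 x)) (fun s hs y => by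
      have h1 := hf.lip (u s y) (v s y)
      rcases le_total 0 (u s y - v s y) with h | h
      · rw [min_eq_right h]
        rw [abs_of_nonneg h] at h1
        have := (abs_le.1 h1).1
        linarith
      · rw [min_eq_left h]
        rw [abs_of_nonpos h] at h1
        have := (abs_le.1 h1).1
        linarith) t ht x
  exact sub_nonneg.1 this

/-- Upper bound of the difference of two ordered solutions by the linear flow. -/
theorem Mild.sub_le {f : ℝ → ℝ} {L : ℝ} (hf : NL f L) {u v : ℝ → E → ℝ} (hu : Mild f u)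
    (hv : Mild f v) (h0 : ∀ x, v 0 x ≤ u 0 x) {t : ℝ} (ht : 0 ≤ t) (x : E) :
    u t x - v t x ≤ Real.exp (L * t) * P t (fun y => u 0 y - v 0 y) x := by
  refine (Mild.sub_isDuh hf hu hv).le_exp ((hu.meas_slice 0).sub (hv.meas_slice 0)) (M0 := 2)
    (fun x => Mild.sub_abs_le hu hv 0 x)
    ((bm_comp hf.continuous hu.meas hu.mem).sub (bm_comp hf.continuous hv.meas hv.mem))
    (hu.bm.sub hv.bm) (fun s hs y => ?_) ht x
  have h1 := hf.lip (u s y) (v s y)
  rw [abs_of_nonneg (sub_nonneg.2 (Mild.le_of_le hf hu hv h0 hs y))] at h1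
  exact (le_abs_self _).trans h1

end Compare

end Pool.Agent.Helper66.KPP
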