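import Pool.Agent.Helper66.KPP.Compare

/-!
# Lower bounds: spreading at linear speed and convergence to `1`
-/

open MeasureTheory Filter Topology Set
open scoped RealInnerProductSpace

set_option linter.unusedSectionVars false
set_option linter.style.haveILetI false
set_option linter.unusedVariables false

namespace Pool.Agent.Helper66.KPP

/-- logistic flow -/
noncomputable def th (θ κ a t : ℝ) : ℝ :=
  θ * a * Real.exp (κ * θ * t) / (θ - a + a * Real.exp (κ * θ * t))

section th

variable {θ κ a : ℝ}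

theorem th_den_pos (ha : 0 < a) (haθ : a ≤ θ) (t : ℝ) : 0 < θ - a + a * Real.exp (κ * θ * t) := by
  have := mul_pos ha (Real.exp_pos (κ * θ * t))
  linarith

theorem th_zero (ha : 0 < a) (haθ : a ≤ θ) : th θ κ a 0 = a := by
  unfold th
  have : θ ≠ 0 := by linarith
  simp only [mul_zero, Real.exp_zero, mul_one, sub_add_cancel]
  field_simp

theorem th_nonneg (ha : 0 < a) (haθ : a ≤ θ) (t : ℝ) : 0 ≤ th θ κ a t := by
  have h := th_den_pos (κ := κ) ha haθ t
  have : 0 < θ := by linarith
  unfold th; positivity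

theorem th_le (ha : 0 < a) (haθ : a ≤ θ) (t : ℝ) : th θ κ a t ≤ θ := by
  have h := th_den_pos (κ := κ) ha haθ t
  have : 0 < θ := by linarith
  unfold th
  rw [div_le_iff₀ h]
  nlinarith [mul_nonneg this.le (sub_nonneg.2 haθ)]

theorem th_hasDerivAt (ha : 0 < a) (haθ : a ≤ θ) (t : ℝ) :
    HasDerivAt (th θ κ a) (κ * th θ κ a t * (θ - th θ κ a t)) t := by
  have h := th_den_pos (κ := κ) ha haθ t
  have he : HasDerivAt (fun t => Real.exp (κ * θ * t)) (Real.exp (κ * θ * t) * (κ * θ)) t := by
    have h0 : HasDerivAt (fun s => κ * θ * s) (κ * θ) t := by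
      have := (hasDerivAt_id t).const_mul (κ * θ)
      simpa using this
    exact h0.exp
  have h1 : HasDerivAt (fun t => θ * a * Real.exp (κ * θ * t))
      (θ * a * (Real.exp (κ * θ * t) * (κ * θ))) t := he.const_mul _
  have h2 : HasDerivAt (fun t => θ - a + a * Real.exp (κ * θ * t))
      (a * (Real.exp (κ * θ * t) * (κ * θ))) t := (he.const_mul a).const_add (θ - a)
  have h3 := h1.div h2 h.ne'
  refine h3.congr_deriv ?_
  unfold th
  have hne := h.ne'
  generalize Real.exp (κ * θ * t) = e at *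
  have e1 : θ - θ * a * e / (θ - a + a * e) = θ * (θ - a) / (θ - a + a * e) := by
    rw [eq_div_iff hne, sub_mul, div_mul_cancel₀ _ hne]; ring
  rw [e1, div_eq_iff (pow_ne_zero 2 hne)]
  field_simp
  ring

theorem th_continuous (ha : 0 < a) (haθ : a ≤ θ) : Continuous (th θ κ a) :=
  continuous_iff_continuousAt.2 fun t => (th_hasDerivAt ha haθ t).continuousAt

theorem th_tendsto (ha : 0 < a) (haθ : a ≤ θ) (hκ : 0 < κ) :
    Tendsto (th θ κ a) atTop (𝓝 θ) := by
  have hθ : 0 < θ := by linarith
  have h1 : Tendsto (fun t : ℝ => κ * θ * t) atTop atTop :=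
    tendsto_id.const_mul_atTop (by positivity)
  have h2 : Tendsto (fun t : ℝ => Real.exp (κ * θ * t)) atTop atTop :=
    Real.tendsto_exp_atTop.comp h1
  have h3 : Tendsto (fun t : ℝ => θ - a + a * Real.exp (κ * θ * t)) atTop atTop :=
    tendsto_atTop_add_const_left _ _ (h2.const_mul_atTop ha)
  have h4 : Tendsto (fun t : ℝ => (θ - a) / (θ - a + a * Real.exp (κ * θ * t))) atTop (𝓝 0) :=
    tendsto_const_nhds.div_atTop h3
  have h5 : Tendsto (fun t : ℝ => θ * (1 - (θ - a) / (θ - a + a * Real.exp (κ * θ * t)))) atTop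
      (𝓝 (θ * (1 - 0))) := (tendsto_const_nhds.sub h4).const_mul θ
  rw [sub_zero, mul_one] at h5
  refine h5.congr fun t => ?_
  have h := th_den_pos (κ := κ) ha haθ t
  unfold th
  have hne := h.ne'
  rw [eq_div_iff hne, mul_assoc, sub_mul, div_mul_cancel₀ _ hne]
  ring

end th

section Spread

variable {E : Type*} [NormedAddCommGroup E] [InnerProductSpace ℝ E] [FiniteDimensional ℝ E]
  [MeasurableSpace E] [BorelSpace E]

theorem ind_mem (A : Set E) (x : E) : A.indicator (fun _ => (1:ℝ)) x ∈ Icc (0:ℝ) 1 := by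
  by_cases h : x ∈ A <;> simp [h]

theorem ind_abs (A : Set E) (x : E) : |A.indicator (fun _ => (1:ℝ)) x| ≤ 1 :=
  abs_le_one_of_mem (ind_mem A x)

theorem ind_meas {A : Set E} (hA : MeasurableSet A) :
    Measurable (A.indicator (fun _ => (1:ℝ))) := measurable_const.indicator hA

theorem P_ind_mem {A : Set E} (hA : MeasurableSet A) (t : ℝ) (x : E) :
    P t (A.indicator fun _ => (1:ℝ)) x ∈ Icc (0:ℝ) 1 :=
  ⟨P_nonneg (fun x => (ind_mem A x).1) t x,
    P_le_const (ind_meas hA) (ind_abs A) (fun x => (ind_mem A x).2) t x⟩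

theorem sub_solution {f : ℝ → ℝ} {L : ℝ} (hf : NL f L) {u : ℝ → E → ℝ} (hu : Mild f u)
    {A : Set E} (hA : MeasurableSet A) {θ κ a : ℝ} (ha : 0 < a) (haθ : a ≤ θ) (hκ : 0 < κ)
    (hlow : ∀ s, 0 ≤ s → s ≤ θ → κ * s * (θ - s) ≤ f s)
    (h0 : ∀ x ∈ A, a ≤ u 0 x) {t : ℝ} (ht : 0 ≤ t) (x : E) :
    th θ κ a t * P t (A.indicator fun _ => (1:ℝ)) x ≤ u t x := by
  set p : ℝ → E → ℝ := fun s y => P s (A.indicator fun _ => (1:ℝ)) y with hp
  set q : ℝ → ℝ := fun s => κ * th θ κ a s * (θ - th θ κ a s) with hq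
  have hθ : 0 < θ := by linarith
  have hqc : Continuous q := by
    have := th_continuous (κ := κ) ha haθ
    fun_prop
  have hpmem : ∀ s y, p s y ∈ Icc (0:ℝ) 1 := fun s y => P_ind_mem hA s y
  have hpm : Measurable (Function.uncurry p) :=
    measurable_P measurable_fst ((ind_meas hA).comp measurable_snd) measurable_snd
  have hq0 : ∀ s, 0 ≤ q s := fun s =>
    mul_nonneg (mul_nonneg hκ.le (th_nonneg ha haθ s)) (sub_nonneg.2 (th_le ha haθ s))
  have hqM : ∀ s, q s ≤ κ * θ * θ := by
    intro s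
    have h1 := th_nonneg (κ := κ) ha haθ s
    have h2 := th_le (κ := κ) ha haθ s
    simp only [hq]
    refine mul_le_mul (mul_le_mul_of_nonneg_left h2 hκ.le) (by linarith) (by linarith) (by positivity)
  have hqp : BM fun s y => q s * p s y := by
    refine ⟨(hqc.measurable.comp measurable_fst).mul hpm, κ * θ * θ, fun s y => ?_⟩
    have := hpmem s y
    rw [abs_of_nonneg (mul_nonneg (hq0 s) this.1)]
    calc q s * p s y ≤ q s * 1 := mul_le_mul_of_nonneg_left this.2 (hq0 s)
      _ ≤ κ * θ * θ := by rw [mul_one]; exact hqM s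
  have hψ : BM fun s y => th θ κ a s * p s y := by
    refine ⟨((th_continuous ha haθ).measurable.comp measurable_fst).mul hpm, θ, fun s y => ?_⟩
    have := hpmem s y
    have h1 := th_nonneg (κ := κ) ha haθ s
    have h2 := th_le (κ := κ) ha haθ s
    rw [abs_of_nonneg (mul_nonneg h1 this.1)]
    calc th θ κ a s * p s y ≤ th θ κ a s * 1 := mul_le_mul_of_nonneg_left this.2 h1
      _ ≤ θ := by rw [mul_one]; exact h2
  have hfu := bm_comp hf.continuous hu.meas hu.mem
  have hD : IsDuh 0 (fun y => u 0 y - a * A.indicator (fun _ => (1:ℝ)) y)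
      (fun s y => f (u s y) - q s * p s y) (fun s y => u s y - th θ κ a s * p s y) := by
    intro t ht x
    obtain ⟨M, hM⟩ := hfu.2
    obtain ⟨M', hM'⟩ := hqp.2
    have h3 : Duh 0 (fun s y => f (u s y) - q s * p s y) t x =
        Duh 0 (fun s y => f (u s y)) t x - (th θ κ a t - a) * p t x := by
      have h4 : (th θ κ a t - a) * p t x = ∫ s in (0:ℝ)..t, q s * p t x := by
        rw [intervalIntegral.integral_mul_const]
        congr 1
        rw [intervalIntegral.integral_eq_sub_of_hasDerivAt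
          (fun s _ => th_hasDerivAt ha haθ s) (hqc.intervalIntegrable _ _), th_zero ha haθ]
      rw [h4]
      unfold Duh
      rw [← intervalIntegral.integral_sub]
      · refine intervalIntegral.integral_congr fun s hs => ?_
        rw [uIcc_of_le ht] at hs
        try simp only
        rw [P_sub (hfu.meas s) (hqp.meas s) (hM s) (hM' s), P_const_mul]
        have h5 : P (t - s) (p s) x = p t x := by
          have := P_comp (ind_meas hA) (ind_abs A) (s := t - s) (t := s) (by linarith [hs.2]) hs.1 x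
          rw [show t - s + s = t by ring] at this
          exact this
        rw [h5]
        simp
      · exact hfu.intble (by fun_prop) x (by fun_prop) _ _
      · exact Continuous.intervalIntegrable (by fun_prop) _ _
    simp only
    rw [h3, P_sub (hu.meas_slice 0) ((ind_meas hA).const_mul a)
      (fun x => abs_le_one_of_mem (hu.mem 0 x)) (M' := a) _, P_const_mul, hu.duh t ht x]
    · simp only [hp]
      simp
      ring
    · intro x
      rw [abs_mul, abs_of_pos ha]
      nlinarith [ind_abs A x]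
  have hw0m : Measurable fun y => u 0 y - a * A.indicator (fun _ => (1:ℝ)) y :=
    (hu.meas_slice 0).sub ((ind_meas hA).const_mul a)
  have hres := hD.nonneg hf.hL hw0m (M0 := 1 + a) (fun x => by
      have a1 := hu.mem 0 x
      have a2 := ind_mem A x
      have a3 := mul_le_mul_of_nonneg_left a2.2 ha.le
      have a4 := mul_nonneg ha.le a2.1
      rw [abs_le]; constructor <;> linarith [a1.1, a1.2])
    (hfu.sub hqp) (hu.bm.sub hψ) (fun x => by
      by_cases hx : x ∈ A
      · simp only [indicator_of_mem hx, mul_one]; linarith [h0 x hx]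
      · simp only [indicator_of_notMem hx, mul_zero, sub_zero]; exact (hu.mem 0 x).1)
    (fun s hs y => by
      have hp1 := hpmem s y
      have h1 := th_nonneg (κ := κ) ha haθ s
      have h2 := th_le (κ := κ) ha haθ s
      set ψ := th θ κ a s * p s y with hψd
      have hψ0 : 0 ≤ ψ := mul_nonneg h1 hp1.1
      have hψ1 : ψ ≤ th θ κ a s := by
        calc ψ ≤ th θ κ a s * 1 := mul_le_mul_of_nonneg_left hp1.2 h1
          _ = th θ κ a s := mul_one _
      have h3 := hlow ψ hψ0 (hψ1.trans h2)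
      have h4 : q s * p s y ≤ κ * ψ * (θ - ψ) := by
        have : q s * p s y = κ * ψ * (θ - th θ κ a s) := by
          simp only [hq, hψd]; ring
        rw [this]
        exact mul_le_mul_of_nonneg_left (by linarith) (mul_nonneg hκ.le hψ0)
      have h5 := hf.lip (u s y) ψ
      rcases le_total 0 (u s y - ψ) with h | h
      · rw [min_eq_right h]
        rw [abs_of_nonneg h] at h5
        have := (abs_le.1 h5).1
        linarith
      · rw [min_eq_left h]
        rw [abs_of_nonpos h] at h5
        have := (abs_le.1 h5).1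
        linarith) t ht x
  exact sub_nonneg.1 hres

theorem integrable_hK {t : ℝ} (x : E) (p : E) (r : ℝ) :
    IntegrableOn (fun y => hK t (x - y)) (Metric.closedBall p r) := by
  have hc : Continuous fun y : E => hK t (x - y) := by
    unfold hK; fun_prop
  exact hc.continuousOn.integrableOn_compact (isCompact_closedBall p r)

theorem P_ball_lower {t : ℝ} (ht : 0 < t) {x p : E} (hx : ‖x - p‖ ≤ 2) :
    (4 * Real.pi * t) ^ (-(Module.finrank ℝ E : ℝ) / 2) * Real.exp (-9 / (4 * t)) *
      (volume (Metric.closedBall (0:E) 1)).toReal ≤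
      P t ((Metric.closedBall p 1).indicator fun _ => (1:ℝ)) x := by
  rw [P_eq_kernel ht]
  have e1 : ∫ y, hK t (x - y) * (Metric.closedBall p 1).indicator (fun _ => (1:ℝ)) y =
      ∫ y in Metric.closedBall p 1, hK t (x - y) := by
    rw [← integral_indicator Metric.isClosed_closedBall.measurableSet]
    refine integral_congr_ae (Eventually.of_forall fun y => ?_)
    by_cases hy : y ∈ Metric.closedBall p 1
    · simp [hy]
    · simp [hy]
  rw [e1]
  have e2 : (4 * Real.pi * t) ^ (-(Module.finrank ℝ E : ℝ) / 2) * Real.exp (-9 / (4 * t)) *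
      (volume (Metric.closedBall (0:E) 1)).toReal = ∫ y in Metric.closedBall p 1,
        (4 * Real.pi * t) ^ (-(Module.finrank ℝ E : ℝ) / 2) * Real.exp (-9 / (4 * t)) := by
    rw [setIntegral_const, smul_eq_mul, mul_comm]
    congr 1
    rw [measureReal_def, Measure.addHaar_closedBall_center volume p 1]
  rw [e2]
  refine setIntegral_mono_on ?_ (integrable_hK x p 1) Metric.isClosed_closedBall.measurableSet
    fun y hy => ?_
  · exact integrableOn_const (by exact measure_closedBall_lt_top.ne)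
  · unfold hK
    refine mul_le_mul_of_nonneg_left ?_ (by positivity)
    rw [Real.exp_le_exp]
    refine div_le_div_of_nonneg_right ?_ (by positivity)
    have h1 : ‖x - y‖ ≤ 3 := by
      have h2 : ‖p - y‖ ≤ 1 := by
        rw [Metric.mem_closedBall, dist_comm, dist_eq_norm] at hy
        exact hy
      calc ‖x - y‖ = ‖(x - p) + (p - y)‖ := by congr 1; abel
        _ ≤ ‖x - p‖ + ‖p - y‖ := norm_add_le _ _
        _ ≤ 3 := by linarith
    nlinarith [norm_nonneg (x - y)]

theorem exists_step {f : ℝ → ℝ} {L : ℝ} (hf : NL f L) :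
    ∃ T > 0, ∃ a > 0, a ≤ 1 / 2 ∧ ∀ u : ℝ → E → ℝ, Mild f u → ∀ p : E,
      (∀ x ∈ Metric.closedBall p 1, a ≤ u 0 x) → ∀ x ∈ Metric.closedBall p 2, a ≤ u T x := by
  obtain ⟨κ, hκ, hlow⟩ := hf.low (1 / 2) (by norm_num) (by norm_num)
  set n : ℝ := (Module.finrank ℝ E : ℝ) with hn
  set V : ℝ := (volume (Metric.closedBall (0:E) 1)).toReal with hV
  have hVpos : 0 < V := by
    rw [hV]
    exact ENNReal.toReal_pos (Metric.measure_closedBall_pos volume 0 one_pos).ne'
      measure_closedBall_lt_top.ne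
  have hlim := tendsto_exp_mul_div_rpow_atTop (n / 2) (κ * (1 / 2)) (by positivity)
  obtain ⟨T, hT1, hT2⟩ := ((hlim.eventually_ge_atTop
    (2 * Real.exp 1 * (4 * Real.pi) ^ (n / 2) / V)).and (eventually_ge_atTop (9 / 4 : ℝ))).exists
  have hT : 0 < T := by linarith
  set e := Real.exp (κ * (1 / 2) * T) with he
  have he0 : 0 < e := Real.exp_pos _
  have he1 : 1 ≤ e := Real.one_le_exp (by positivity)
  refine ⟨T, hT, (1 / 2) / e, by positivity, ?_, ?_⟩
  · rw [div_le_iff₀ he0]; linarith
  intro u hu p h0 x hx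
  have haθ : (1 / 2) / e ≤ 1 / 2 := by rw [div_le_iff₀ he0]; linarith
  have h1 := sub_solution hf hu (A := Metric.closedBall p 1) Metric.isClosed_closedBall.measurableSet
    (θ := 1 / 2) (κ := κ) (a := (1 / 2) / e) (by positivity) haθ hκ hlow h0 hT.le x
  refine le_trans ?_ h1
  have h2 : (1 / 4 : ℝ) ≤ th (1 / 2) κ ((1 / 2) / e) T := by
    unfold th
    rw [← he]
    have h3 : (1 / 2 : ℝ) / e * e = 1 / 2 := by field_simp
    rw [h3, mul_assoc, h3, le_div_iff₀]
    · have : 0 < (1 / 2 : ℝ) / e := by positivity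
      linarith
    · linarith
  have hx' : ‖x - p‖ ≤ 2 := by rwa [Metric.mem_closedBall, dist_eq_norm] at hx
  have h3 := P_ball_lower hT hx'
  have h4 : 2 / e ≤ (4 * Real.pi * T) ^ (-n / 2) * Real.exp (-9 / (4 * T)) * V := by
    have h5 : Real.exp (-1) ≤ Real.exp (-9 / (4 * T)) := by
      rw [Real.exp_le_exp, le_div_iff₀ (by positivity)]
      linarith
    have h6 : (4 * Real.pi * T) ^ (-n / 2) = ((4 * Real.pi) ^ (n / 2) * T ^ (n / 2))⁻¹ := by
      rw [show -n / 2 = -(n / 2) by ring, Real.rpow_neg (by positivity),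
        Real.mul_rpow (by positivity) hT.le]
    have h7 : 2 / e ≤ (4 * Real.pi * T) ^ (-n / 2) * Real.exp (-1) * V := by
      rw [h6, Real.exp_neg]
      have h8 : 0 < T ^ (n / 2) := by positivity
      have h9 : 0 < (4 * Real.pi) ^ (n / 2) := by positivity
      rw [div_le_div_iff₀ hVpos h8] at hT1
      rw [div_le_iff₀ he0]
      have h10 : (((4 * Real.pi) ^ (n / 2) * T ^ (n / 2))⁻¹ * (Real.exp 1)⁻¹ * V) * e =
          e * V / ((4 * Real.pi) ^ (n / 2) * T ^ (n / 2) * Real.exp 1) := by
        field_simp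
      rw [h10, le_div_iff₀ (by positivity)]
      linarith
    refine h7.trans ?_
    refine mul_le_mul_of_nonneg_right ?_ hVpos.le
    exact mul_le_mul_of_nonneg_left h5 (by positivity)
  have h5 := h4.trans h3
  have h6 : (1 / 2) / e = (1 / 4) * (2 / e) := by field_simp; norm_num
  calc (1 / 2) / e = (1 / 4) * (2 / e) := h6
    _ ≤ _ := mul_le_mul h2 h5 (by positivity) (th_nonneg (by positivity) haθ _)

theorem grow {f : ℝ → ℝ} {T a : ℝ} (hstep : ∀ u : ℝ → E → ℝ, Mild f u → ∀ p : E,
      (∀ x ∈ Metric.closedBall p 1, a ≤ u 0 x) → ∀ x ∈ Metric.closedBall p 2, a ≤ u T x)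
    {u : ℝ → E → ℝ} (hu : Mild f u) (p : E) {r : ℝ} (hr : 1 ≤ r)
    (h0 : ∀ x ∈ Metric.closedBall p r, a ≤ u 0 x) :
    ∀ x ∈ Metric.closedBall p (r + 1), a ≤ u T x := by
  intro x hx
  rw [Metric.mem_closedBall, dist_eq_norm] at hx
  by_cases hc : ‖x - p‖ ≤ r - 1
  · refine hstep u hu x (fun y hy => h0 y ?_) x (Metric.mem_closedBall_self (by norm_num))
    rw [Metric.mem_closedBall] at hy ⊢
    calc dist y p ≤ dist y x + dist x p := dist_triangle _ _ _
      _ ≤ 1 + (r - 1) := add_le_add hy (by rwa [dist_eq_norm])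
      _ = r := by ring
  · push Not at hc
    have hn : 0 < ‖x - p‖ := lt_of_le_of_lt (by linarith) hc
    set q : E := p + ((r - 1) / ‖x - p‖) • (x - p) with hq
    have h1 : ‖q - p‖ = r - 1 := by
      rw [hq, add_sub_cancel_left, norm_smul, Real.norm_eq_abs,
        abs_of_nonneg (div_nonneg (by linarith) hn.le)]
      field_simp
    have h2 : ‖x - q‖ ≤ 2 := by
      have h3 : x - q = (1 - (r - 1) / ‖x - p‖) • (x - p) := by
        rw [hq, sub_smul, one_smul]; abel
      rw [h3, norm_smul, Real.norm_eq_abs, abs_of_nonneg]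
      · rw [sub_mul, one_mul, div_mul_cancel₀ _ hn.ne']
        linarith
      · rw [sub_nonneg, div_le_one hn]; exact hc.le
    refine hstep u hu q (fun y hy => h0 y ?_) x (by rwa [Metric.mem_closedBall, dist_eq_norm])
    rw [Metric.mem_closedBall] at hy ⊢
    calc dist y p ≤ dist y q + dist q p := dist_triangle _ _ _
      _ ≤ 1 + (r - 1) := add_le_add hy (by rw [dist_eq_norm]; exact h1.le)
      _ = r := by ring

theorem grow_iter {f : ℝ → ℝ} (hf : Continuous f) {T a : ℝ} (hT : 0 < T)
    (hstep : ∀ u : ℝ → E → ℝ, Mild f u → ∀ p : E,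
      (∀ x ∈ Metric.closedBall p 1, a ≤ u 0 x) → ∀ x ∈ Metric.closedBall p 2, a ≤ u T x)
    (n : ℕ) {u : ℝ → E → ℝ} (hu : Mild f u) (p : E)
    (h0 : ∀ x ∈ Metric.closedBall p 1, a ≤ u 0 x) :
    ∀ x ∈ Metric.closedBall p (1 + n), a ≤ u (n * T) x := by
  induction n with
  | zero => simpa using h0
  | succ n ih =>
    have h1 := hu.restart hf (s := n * T) (by positivity)
    have h2 := grow hstep h1 p (r := 1 + n) (by simp) (by simpa using ih)
    intro x hx
    have h3 := h2 x (by push_cast at hx; rwa [add_assoc])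
    push_cast
    rwa [show ((n:ℝ) + 1) * T = n * T + T by ring]

theorem exists_tail : ∃ C > 0, ∀ τ > 0, ∀ R ≥ 0, ∀ x : E,
    P τ ({y | R < ‖y - x‖}.indicator fun _ => (1:ℝ)) x ≤ C * Real.exp (-(R ^ 2 / (8 * τ))) := by
  have hint : Integrable (fun z : E => Real.exp (‖z‖ ^ 2 / 4)) (gau E) := by
    unfold gau
    rw [integrable_withDensity_iff_integrable_smul']
    · have h1 : Integrable fun z : E => Real.exp (-(1 / 4) * ‖z‖ ^ 2) := by
        have := GaussianFourier.integral_rexp_neg_mul_sq_norm (V := E) (b := 1 / 4) (by norm_num)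
        by_contra h
        rw [integral_undef h] at this
        have h2 : (0:ℝ) < (Real.pi / (1 / 4)) ^ (Module.finrank ℝ E / 2 : ℝ) := by positivity
        exact h2.ne this
      refine (h1.const_mul ((2 * Real.pi) ^ (-(Module.finrank ℝ E : ℝ) / 2))).congr
        (Eventually.of_forall fun z => ?_)
      simp only
      rw [ENNReal.toReal_ofReal (gdens_nonneg z), smul_eq_mul]
      unfold gdens
      rw [mul_assoc, ← Real.exp_add]
      congr 2
      ring
    · exact measurable_gdens.ennreal_ofReal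
    · exact Eventually.of_forall fun z => ENNReal.ofReal_lt_top
  refine ⟨∫ z, Real.exp (‖z‖ ^ 2 / 4) ∂(gau E), ?_, ?_⟩
  · exact integral_exp_pos hint
  intro τ hτ R hR x
  unfold P
  rw [← integral_mul_const]
  have hmeas : Measurable ({y : E | R < ‖y - x‖}.indicator fun _ => (1:ℝ)) := by
    refine ind_meas ?_
    exact measurableSet_lt measurable_const (by fun_prop)
  refine integral_mono (integrable_shift hmeas (ind_abs _) x _) (hint.mul_const _) fun z => ?_
  simp only
  by_cases hz : x + √(2 * τ) • z ∈ {y : E | R < ‖y - x‖}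
  · rw [indicator_of_mem hz, ← Real.exp_add]
    refine Real.one_le_exp ?_
    simp only [mem_ofPred_eq, add_sub_cancel_left, norm_smul, Real.norm_eq_abs] at hz
    rw [abs_of_nonneg (Real.sqrt_nonneg _)] at hz
    have h1 : R ^ 2 ≤ 2 * τ * ‖z‖ ^ 2 := by
      have h2 : R ^ 2 ≤ (√(2 * τ) * ‖z‖) ^ 2 := pow_le_pow_left₀ hR hz.le 2
      rwa [mul_pow, Real.sq_sqrt (by positivity)] at h2
    have h3 : R ^ 2 / (8 * τ) ≤ ‖z‖ ^ 2 / 4 := by
      rw [div_le_div_iff₀ (by positivity) (by norm_num)]
      nlinarith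
    linarith
  · rw [indicator_of_notMem hz]
    positivity

theorem exists_spread {f : ℝ → ℝ} {L : ℝ} (hf : NL f L) :
    ∃ c > 0, ∀ ε > 0, ∃ t0 > 0, ∀ t ≥ t0, ∀ u : ℝ → E → ℝ, Mild f u → ∀ z p : E,
      (∀ x ∈ Metric.closedBall p 1, u 0 x = 1) → ‖z - p‖ ≤ c * t → 1 - ε ≤ u t z := by
  obtain ⟨T, hT, a, ha, ha2, hstep⟩ := exists_step (E := E) hf
  obtain ⟨C, hC, htail⟩ := exists_tail (E := E)
  refine ⟨1 / (2 * T), by positivity, fun ε hε => ?_⟩
  set ε' := min (ε / 3) (1 / 4) with hε'
  have hε'0 : 0 < ε' := by positivity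
  have hε'1 : ε' ≤ 1 / 4 := min_le_right _ _
  have hε'2 : ε' ≤ ε / 3 := min_le_left _ _
  set θ := 1 - ε' with hθ
  have haθ : a ≤ θ := by linarith
  obtain ⟨κ, hκ, hlow⟩ := hf.low θ (by linarith) (by linarith)
  obtain ⟨τ, hτ⟩ := eventually_atTop.1 (((th_tendsto ha haθ hκ).eventually
    (lt_mem_nhds (show θ - ε' < θ by linarith))).and (eventually_ge_atTop (1:ℝ)))
  have hτ1 : 1 ≤ τ := (hτ τ le_rfl).2
  -- choose R
  have hR : ∃ R ≥ (0:ℝ), C * Real.exp (-(R ^ 2 / (8 * (τ + T)))) ≤ ε' := by
    have h1 : Tendsto (fun R : ℝ => C * Real.exp (-(R ^ 2 / (8 * (τ + T))))) atTop (𝓝 (C * 0)) := by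
      refine Tendsto.const_mul C (Real.tendsto_exp_neg_atTop_nhds_zero.comp ?_)
      exact (tendsto_pow_atTop (two_ne_zero)).atTop_div_const (by positivity)
    rw [mul_zero] at h1
    obtain ⟨R, h2, h3⟩ := ((h1.eventually (gt_mem_nhds hε'0)).and (eventually_ge_atTop 0)).exists
    exact ⟨R, h3, h2.le⟩
  obtain ⟨R, hR0, hR1⟩ := hR
  refine ⟨2 * T * (R + τ / T + 1), by positivity, fun t ht u hu z p h0 hz => ?_⟩
  have htτ : τ ≤ t := by
    have h1 : 2 * T * (R + τ / T + 1) = 2 * T * R + 2 * τ + 2 * T := by field_simp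
    rw [h1] at ht
    have : 0 ≤ T * R := by positivity
    nlinarith
  set n := ⌊(t - τ) / T⌋₊ with hn
  have hn1 : (n:ℝ) ≤ (t - τ) / T := Nat.floor_le (div_nonneg (by linarith) hT.le)
  have hn2 : (t - τ) / T < n + 1 := Nat.lt_floor_add_one _
  set τ' := t - n * T with hτ'
  have hτ'1 : τ ≤ τ' := by
    rw [le_div_iff₀ hT] at hn1
    linarith
  have hτ'2 : τ' ≤ τ + T := by
    rw [div_lt_iff₀ hT] at hn2
    linarith
  have hτ'0 : 0 < τ' := by linarith
  have hgrow := grow_iter hf.continuous hT hstep n hu p (fun x hx => by rw [h0 x hx]; linarith)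
  have hre := hu.restart hf.continuous (s := n * T) (by positivity)
  have hball : ∀ x ∈ Metric.closedBall z R, a ≤ (fun t => u (n * T + t)) 0 x := by
    intro x hx
    simp only [add_zero]
    refine hgrow x ?_
    rw [Metric.mem_closedBall] at hx ⊢
    have h1 : dist z p ≤ 1 / (2 * T) * t := by rwa [dist_eq_norm]
    have h2 : 1 / (2 * T) * t + R ≤ 1 + n := by
      have h3 : (t - τ) / T ≤ n + 1 := hn2.le
      have h4 : (t - τ) / T = t / T - τ / T := sub_div _ _ _
      have h5 : R + τ / T + 1 ≤ t / (2 * T) := by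
        rw [le_div_iff₀ (by positivity)]
        linarith
      have h6 : t / T = t / (2 * T) + t / (2 * T) := by field_simp; ring
      have h7 : 1 / (2 * T) * t = t / (2 * T) := by ring
      rw [h7]
      linarith
    calc dist x p ≤ dist x z + dist z p := dist_triangle _ _ _
      _ ≤ 1 + n := by linarith
  have h1 := sub_solution hf hre (A := Metric.closedBall z R)
    Metric.isClosed_closedBall.measurableSet ha haθ hκ hlow hball hτ'0.le z
  have h2 : (n:ℝ) * T + τ' = t := by rw [hτ']; ring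
  simp only [h2] at h1
  refine le_trans ?_ h1
  have h3 : θ - ε' ≤ th θ κ a τ' := (hτ τ' hτ'1).1.le
  have h4 : 1 - ε' ≤ P τ' ((Metric.closedBall z R).indicator fun _ => (1:ℝ)) z := by
    have h5 := htail τ' hτ'0 R hR0 z
    have h6 : C * Real.exp (-(R ^ 2 / (8 * τ'))) ≤ ε' := by
      refine le_trans (mul_le_mul_of_nonneg_left ?_ hC.le) hR1
      rw [Real.exp_le_exp, neg_le_neg_iff]
      exact div_le_div_of_nonneg_left (by positivity) (by positivity) (by linarith)
    have h7 : P τ' ((Metric.closedBall z R).indicator fun _ => (1:ℝ)) z =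
        1 - P τ' ({y | R < ‖y - z‖}.indicator fun _ => (1:ℝ)) z := by
      have h8 : ((Metric.closedBall z R).indicator fun _ => (1:ℝ)) =
          fun y => (1:ℝ) - {y | R < ‖y - z‖}.indicator (fun _ => (1:ℝ)) y := by
        funext y
        by_cases hy : y ∈ Metric.closedBall z R
        · have : y ∉ {y | R < ‖y - z‖} := by
            rw [Metric.mem_closedBall, dist_eq_norm] at hy
            simp only [mem_ofPred_eq, not_lt]; exact hy
          rw [indicator_of_mem hy, indicator_of_notMem this]; ring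
        · have : y ∈ {y | R < ‖y - z‖} := by
            rw [Metric.mem_closedBall, dist_eq_norm] at hy
            push Not at hy
            exact hy
          rw [indicator_of_notMem hy, indicator_of_mem this]; ring
      rw [h8, P_sub (M := 1) (M' := 1) measurable_const
        (ind_meas (measurableSet_lt measurable_const (by fun_prop))) (by simp) (ind_abs _), P_const]
    rw [h7]
    linarith
  have h5 : 0 ≤ P τ' ((Metric.closedBall z R).indicator fun _ => (1:ℝ)) z :=
    (P_ind_mem Metric.isClosed_closedBall.measurableSet _ _).1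
  have h6 : 0 ≤ θ - ε' := by linarith
  calc 1 - ε ≤ (θ - ε') * (1 - ε') := by nlinarith
    _ ≤ _ := mul_le_mul h3 h4 (by linarith) (h6.trans h3)

end Spread

end Pool.Agent.Helper66.KPP
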