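import Pool.Agent.Helper66.KPP.Geom
import Pool.Agent.Helper66.KPP.Spread

/-!
# Decay of the differences `u(t, z) - u(t, z + v)`
-/

open MeasureTheory Filter Topology Set

set_option linter.unusedVariables false

namespace Pool.Agent.Helper66.KPP

theorem exp_sq_gap {ρ a b : ℝ} (hρ : 1 ≤ ρ) (ha : ρ ≤ a) (hab : a ≤ b) :
    Real.exp (ρ ^ 2) * (b - a) ≤ Real.exp (b ^ 2) - Real.exp (a ^ 2) := by
  have e1 : b ^ 2 = a ^ 2 + (b ^ 2 - a ^ 2) := by ring
  have h1 := Real.add_one_le_exp (b ^ 2 - a ^ 2)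
  have h2 : Real.exp (a ^ 2) * (b ^ 2 - a ^ 2 + 1) ≤ Real.exp (b ^ 2) := by
    rw [e1, Real.exp_add]
    have : a ^ 2 + (b ^ 2 - a ^ 2) - a ^ 2 = b ^ 2 - a ^ 2 := by ring
    rw [this]
    exact mul_le_mul_of_nonneg_left h1 (Real.exp_pos _).le
  have h3 : b - a ≤ b ^ 2 - a ^ 2 := by nlinarith
  have h4 : Real.exp (ρ ^ 2) ≤ Real.exp (a ^ 2) := Real.exp_le_exp.2 (by nlinarith)
  have h5 : Real.exp (ρ ^ 2) * (b - a) ≤ Real.exp (a ^ 2) * (b ^ 2 - a ^ 2) :=
    mul_le_mul h4 h3 (by linarith) (Real.exp_pos _).le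
  nlinarith

theorem vol_Y {ρ lo hi : ℝ} (hρ : 1 ≤ ρ) (hle : lo ≤ hi) :
    volume {s : ℝ | ρ ≤ |s| ∧ lo ≤ Real.exp (s ^ 2) ∧ Real.exp (s ^ 2) ≤ hi} ≤
      ENNReal.ofReal (2 * ((hi - lo) / Real.exp (ρ ^ 2))) := by
  set Y := {s : ℝ | ρ ≤ |s| ∧ lo ≤ Real.exp (s ^ 2) ∧ Real.exp (s ^ 2) ≤ hi} with hY
  have hδ : 0 ≤ (hi - lo) / Real.exp (ρ ^ 2) := div_nonneg (by linarith) (Real.exp_pos _).le
  have key : ∀ s ∈ Y, ∀ s' ∈ Y, |s| ≤ |s'| → |s'| - |s| ≤ (hi - lo) / Real.exp (ρ ^ 2) := by
    intro s hs s' hs' hle'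
    have h1 := exp_sq_gap hρ hs.1 hle'
    rw [sq_abs, sq_abs] at h1
    rw [le_div_iff₀ (Real.exp_pos _)]
    have h2 := hs.2.1
    have h3 := hs'.2.2
    linarith
  have key2 : ∀ s ∈ Y, ∀ s' ∈ Y, |(|s| - |s'|)| ≤ (hi - lo) / Real.exp (ρ ^ 2) := by
    intro s hs s' hs'
    rcases le_total (|s|) (|s'|) with h | h
    · rw [abs_sub_comm, abs_of_nonneg (by linarith)]; exact key s hs s' hs' h
    · rw [abs_of_nonneg (by linarith)]; exact key s' hs' s hs h
  have h1 : volume (Y ∩ Ici 0) ≤ ENNReal.ofReal ((hi - lo) / Real.exp (ρ ^ 2)) := by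
    refine (Real.volume_le_diam _).trans ?_
    rw [Metric.ediam_le_iff]
    intro s hs s' hs'
    rw [edist_dist, Real.dist_eq]
    refine ENNReal.ofReal_le_ofReal ?_
    have := key2 s hs.1 s' hs'.1
    rwa [abs_of_nonneg (show 0 ≤ s from hs.2), abs_of_nonneg (show 0 ≤ s' from hs'.2)] at this
  have h2 : volume (Y ∩ Iic 0) ≤ ENNReal.ofReal ((hi - lo) / Real.exp (ρ ^ 2)) := by
    refine (Real.volume_le_diam _).trans ?_
    rw [Metric.ediam_le_iff]
    intro s hs s' hs'
    rw [edist_dist, Real.dist_eq]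
    refine ENNReal.ofReal_le_ofReal ?_
    have := key2 s hs.1 s' hs'.1
    rw [abs_of_nonpos (show s ≤ 0 from hs.2), abs_of_nonpos (show s' ≤ 0 from hs'.2)] at this
    rw [abs_sub_comm]
    convert this using 2
    ring
  have h3 : Y ⊆ (Y ∩ Ici 0) ∪ (Y ∩ Iic 0) := by
    intro s hs
    rcases le_total 0 s with h | h
    · exact Or.inl ⟨hs, h⟩
    · exact Or.inr ⟨hs, h⟩
  calc volume Y ≤ volume ((Y ∩ Ici 0) ∪ (Y ∩ Iic 0)) := measure_mono h3
    _ ≤ volume (Y ∩ Ici 0) + volume (Y ∩ Iic 0) := measure_union_le _ _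
    _ ≤ _ := by
      rw [two_mul, ENNReal.ofReal_add hδ hδ]
      exact add_le_add h1 h2

variable {N : ℕ}

/-- the symmetric difference of the horn complement and its translate -/
def shell (i j : Fin N) (h : ℝ) : Set (E N) :=
  {x | x i ≤ Real.exp ((x j) ^ 2) ∧ Real.exp ((x j) ^ 2) < x i + h}

theorem measurableSet_shell (i j : Fin N) (h : ℝ) : MeasurableSet (shell i j h) := by
  have h1 : MeasurableSet {x : E N | x i ≤ Real.exp ((x j) ^ 2)} :=
    measurableSet_le (by fun_prop) (by fun_prop)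
  have h2 : MeasurableSet {x : E N | Real.exp ((x j) ^ 2) < x i + h} :=
    measurableSet_lt (by fun_prop) (by fun_prop)
  exact h1.inter h2

theorem vol_shell {i j : Fin N} (hij : i ≠ j) {z : E N} {r h ρ : ℝ} (hr : 0 ≤ r) (hh : 0 ≤ h)
    (hρ : 1 ≤ ρ) (hz : Real.exp (ρ ^ 2) ≤ z i - r) :
    volume (shell i j h ∩ Metric.closedBall z r) ≤
      ENNReal.ofReal ((2 * r) ^ (N - 1) * (2 * ((2 * r + h) / Real.exp (ρ ^ 2)))) := by
  set Y := {s : ℝ | ρ ≤ |s| ∧ z i - r ≤ Real.exp (s ^ 2) ∧ Real.exp (s ^ 2) ≤ z i + r + h} with hY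
  have hYm : MeasurableSet Y := by
    have h1 : MeasurableSet {s : ℝ | ρ ≤ |s|} := measurableSet_le (by fun_prop) (by fun_prop)
    have h2 : MeasurableSet {s : ℝ | z i - r ≤ Real.exp (s ^ 2)} :=
      measurableSet_le (by fun_prop) (by fun_prop)
    have h3 : MeasurableSet {s : ℝ | Real.exp (s ^ 2) ≤ z i + r + h} :=
      measurableSet_le (by fun_prop) (by fun_prop)
    exact h1.inter (h2.inter h3)
  set I : Fin N → Set ℝ := fun k => if k = j then Y else Icc (z k - r) (z k + r) with hI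
  have hIm : ∀ k, MeasurableSet (I k) := by
    intro k
    simp only [hI]
    split_ifs
    · exact hYm
    · exact measurableSet_Icc
  have hsub : shell i j h ∩ Metric.closedBall z r ⊆
      (WithLp.ofLp : E N → (Fin N → ℝ)) ⁻¹' (Set.pi univ I) := by
    rintro x ⟨hx1, hx2⟩
    rw [Metric.mem_closedBall, dist_eq_norm] at hx2
    have hc : ∀ k, |x k - z k| ≤ r := by
      intro k
      have := (coord_le (x - z) k).trans hx2
      rwa [PiLp.sub_apply] at this
    intro k _
    simp only [hI]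
    split_ifs with hk
    · subst hk
      have h1 := abs_le.1 (hc i)
      refine ⟨?_, ?_, ?_⟩
      · have h2 : Real.exp (ρ ^ 2) ≤ Real.exp ((x k) ^ 2) := by
          have := hx1.1
          linarith [h1.1]
        rw [Real.exp_le_exp] at h2
        have h3 := sq_le_sq.1 h2
        rwa [abs_of_nonneg (by linarith : 0 ≤ ρ)] at h3
      · have := hx1.1
        linarith [h1.1]
      · have := hx1.2
        linarith [h1.2]
    · have h1 := abs_le.1 (hc k)
      exact ⟨by linarith [h1.1], by linarith [h1.2]⟩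
  have hvol : volume ((WithLp.ofLp : E N → (Fin N → ℝ)) ⁻¹' (Set.pi univ I)) = ∏ k, volume (I k) := by
    rw [(PiLp.volume_preserving_ofLp (Fin N)).measure_preimage
      (MeasurableSet.univ_pi hIm).nullMeasurableSet, volume_pi_pi]
  refine (measure_mono hsub).trans ?_
  rw [hvol, ← Finset.mul_prod_erase Finset.univ _ (Finset.mem_univ j), mul_comm,
    ENNReal.ofReal_mul (by positivity)]
  refine mul_le_mul' ?_ ?_
  · have h1 : ∀ k ∈ Finset.univ.erase j, volume (I k) = ENNReal.ofReal (2 * r) := by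
      intro k hk
      have hkj : k ≠ j := Finset.ne_of_mem_erase hk
      simp only [hI, hkj, if_false, Real.volume_Icc]
      congr 1
      ring
    rw [Finset.prod_congr rfl h1, Finset.prod_const, Finset.card_erase_of_mem (Finset.mem_univ j),
      Finset.card_univ, Fintype.card_fin, ENNReal.ofReal_pow (by positivity)]
  · have h1 : I j = Y := by simp [hI]
    rw [h1]
    have h2 := vol_Y (lo := z i - r) (hi := z i + r + h) hρ (by linarith)
    refine h2.trans (ENNReal.ofReal_le_ofReal ?_)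
    have h3 : z i + r + h - (z i - r) = 2 * r + h := by ring
    rw [h3]

theorem P_ind_le_vol {A : Set (E N)} (hA : MeasurableSet A) {V : ℝ} (hV : 0 ≤ V)
    (hvol : volume A ≤ ENNReal.ofReal V) {t : ℝ} (ht : 0 < t) (ht1 : 1 ≤ 4 * Real.pi * t) (x : E N) :
    P t (A.indicator fun _ => (1:ℝ)) x ≤ V := by
  rw [P_eq_kernel ht]
  have hfin : volume A ≠ ⊤ := (hvol.trans_lt ENNReal.ofReal_lt_top).ne
  have h1 : ∫ y, hK t (x - y) * A.indicator (fun _ => (1:ℝ)) y ≤
      ∫ y, A.indicator (fun _ => (1:ℝ)) y := by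
    refine integral_mono_of_nonneg (Eventually.of_forall fun y => ?_) ?_
      (Eventually.of_forall fun y => ?_)
    · have : 0 ≤ hK t (x - y) := by unfold hK; positivity
      exact mul_nonneg this (ind_mem A y).1
    · rw [integrable_indicator_iff hA]
      exact integrableOn_const hfin
    · have h2 : hK t (x - y) ≤ 1 := by
        unfold hK
        have h3 : (4 * Real.pi * t) ^ (-(Module.finrank ℝ (E N) : ℝ) / 2) ≤ 1 := by
          refine Real.rpow_le_one_of_one_le_of_nonpos ht1 ?_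
          have : (0:ℝ) ≤ Module.finrank ℝ (E N) := Nat.cast_nonneg _
          linarith
        have h4 : Real.exp (-‖x - y‖ ^ 2 / (4 * t)) ≤ 1 := by
          rw [Real.exp_le_one_iff]
          have : 0 ≤ ‖x - y‖ ^ 2 / (4 * t) := by positivity
          have e : -‖x - y‖ ^ 2 / (4 * t) = -(‖x - y‖ ^ 2 / (4 * t)) := by ring
          rw [e]; linarith
        exact mul_le_one₀ h3 (Real.exp_pos _).le h4
      simp only
      calc hK t (x - y) * A.indicator (fun _ => (1:ℝ)) y ≤ 1 * A.indicator (fun _ => (1:ℝ)) y :=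
            mul_le_mul_of_nonneg_right h2 (ind_mem A y).1
        _ = _ := one_mul _
  refine h1.trans ?_
  rw [integral_indicator_const _ hA, smul_eq_mul, mul_one, measureReal_def]
  exact ENNReal.toReal_le_of_le_ofReal hV hvol

theorem decay {i j : Fin N} (hij : i ≠ j) {c L h ε : ℝ} (hc : 0 < c) (hL : 0 ≤ L) (hh : 0 ≤ h)
    (hε : 0 < ε) : ∃ t0 > 0, ∀ t ≥ t0, 3 ≤ c * t ∧ ∀ z : E N, Real.exp ((c * t - 3) ^ 2) < z i + h →
      Real.exp (L * t) * P t ((shell i j h).indicator fun _ => (1:ℝ)) z ≤ ε := by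
  obtain ⟨C, hC, htail⟩ := exists_tail (E := E N)
  set M : ℝ := 8 * (L + 1) with hM
  have hM0 : 8 ≤ M := by rw [hM]; linarith
  have hN : 1 ≤ N := by have := i.pos; omega
  have hlim : Tendsto (fun t : ℝ => C * Real.exp (-t) + 2 * (2 * M + h) ^ N * (t ^ N * Real.exp (-t)))
      atTop (𝓝 (C * 0 + 2 * (2 * M + h) ^ N * 0)) :=
    (Real.tendsto_exp_neg_atTop_nhds_zero.const_mul C).add
      ((Real.tendsto_pow_mul_exp_neg_atTop_nhds_zero N).const_mul _)
  rw [mul_zero, mul_zero, add_zero] at hlim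
  obtain ⟨t1, ht1⟩ := eventually_atTop.1 (hlim.eventually (ge_mem_nhds hε))
  refine ⟨|t1| + 1 + 10 / c + 4 * (M + h) / c ^ 2 + 4 * (L + 1) / c ^ 2, by positivity,
    fun t ht => ?_⟩
  have hp1 : 0 ≤ |t1| := abs_nonneg _
  have hp2 : 0 < 10 / c := by positivity
  have hp3 : 0 < 4 * (M + h) / c ^ 2 := by positivity
  have hp4 : 0 < 4 * (L + 1) / c ^ 2 := by positivity
  have ht1' : t1 ≤ t := (le_abs_self t1).trans (by linarith)
  have htge1 : 1 ≤ t := by linarith
  have ht0 : 0 < t := by linarith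
  have hct : 10 ≤ c * t := by
    have : 10 / c ≤ t := by linarith
    rw [div_le_iff₀ hc] at this
    linarith
  have hρ2 : (c * t / 2) ^ 2 ≤ (c * t - 4) ^ 2 := by
    have : c * t / 2 ≤ c * t - 4 := by linarith
    exact pow_le_pow_left₀ (by linarith) this 2
  have hρM : (M + h) * t ≤ (c * t - 4) ^ 2 := by
    have h1 : 4 * (M + h) / c ^ 2 ≤ t := by linarith
    rw [div_le_iff₀ (by positivity)] at h1
    nlinarith
  have hρL : (L + 1) * t ≤ (c * t - 4) ^ 2 := by
    have h1 : 4 * (L + 1) / c ^ 2 ≤ t := by linarith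
    rw [div_le_iff₀ (by positivity)] at h1
    nlinarith
  refine ⟨by linarith, fun z hz => ?_⟩
  set ρ := c * t - 4 with hρ
  have hρ1 : 1 ≤ ρ := by linarith
  have hr0 : 0 ≤ M * t := by positivity
  have hzr : Real.exp (ρ ^ 2) ≤ z i - M * t := by
    have e1 : (c * t - 3) ^ 2 = ρ ^ 2 + (2 * ρ + 1) := by rw [hρ]; ring
    rw [e1, Real.exp_add] at hz
    have h1 := Real.add_one_le_exp (2 * ρ + 1)
    have h2 := Real.add_one_le_exp (ρ ^ 2)
    have h3 : Real.exp (ρ ^ 2) * (2 * ρ + 1 + 1) ≤ Real.exp (ρ ^ 2) * Real.exp (2 * ρ + 1) :=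
      mul_le_mul_of_nonneg_left h1 (Real.exp_pos _).le
    have h4 : M * t + h ≤ ρ ^ 2 := by nlinarith
    have h5 : ρ ^ 2 ≤ Real.exp (ρ ^ 2) := by linarith
    have h6 : Real.exp (ρ ^ 2) ≤ Real.exp (ρ ^ 2) * (2 * ρ + 1) := by nlinarith [Real.exp_pos (ρ ^ 2)]
    nlinarith
  have hvol := vol_shell hij (z := z) (r := M * t) (h := h) (ρ := ρ) hr0 hh hρ1 hzr
  set V : ℝ := (2 * (M * t)) ^ (N - 1) * (2 * ((2 * (M * t) + h) / Real.exp (ρ ^ 2))) with hV
  have hV0 : 0 ≤ V := by positivity
  have hP1 := P_ind_le_vol ((measurableSet_shell i j h).inter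
    Metric.isClosed_closedBall.measurableSet) hV0 hvol ht0
    (by nlinarith [Real.pi_gt_three]) z
  have hP2 := htail t ht0 (M * t) hr0 z
  have hS : P t ((shell i j h).indicator fun _ => (1:ℝ)) z ≤
      P t ((shell i j h ∩ Metric.closedBall z (M * t)).indicator fun _ => (1:ℝ)) z +
      P t ({y | M * t < ‖y - z‖}.indicator fun _ => (1:ℝ)) z := by
    have hm1 : MeasurableSet (shell i j h ∩ Metric.closedBall z (M * t)) :=
      (measurableSet_shell i j h).inter Metric.isClosed_closedBall.measurableSet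
    have hm2 : MeasurableSet {y : E N | M * t < ‖y - z‖} :=
      measurableSet_lt measurable_const (by fun_prop)
    rw [← P_add (ind_meas hm1) (ind_meas hm2) (ind_abs _) (ind_abs _)]
    have hadd : Measurable fun y : E N =>
        (shell i j h ∩ Metric.closedBall z (M * t)).indicator (fun _ => (1:ℝ)) y +
        {y | M * t < ‖y - z‖}.indicator (fun _ => (1:ℝ)) y := (ind_meas hm1).add (ind_meas hm2)
    refine P_mono (ind_meas (measurableSet_shell i j h)) hadd
      (ind_abs _) (M' := 2) (fun y => ?_) (fun y => ?_) t z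
    · have a1 := ind_mem (shell i j h ∩ Metric.closedBall z (M * t)) y
      have a2 := ind_mem {y : E N | M * t < ‖y - z‖} y
      rw [abs_of_nonneg (add_nonneg a1.1 a2.1)]
      linarith [a1.2, a2.2]
    · by_cases hy : y ∈ shell i j h
      · rw [indicator_of_mem hy]
        by_cases hy2 : M * t < ‖y - z‖
        · have h1 : y ∈ {y : E N | M * t < ‖y - z‖} := hy2
          rw [indicator_of_mem h1]
          have := (ind_mem (shell i j h ∩ Metric.closedBall z (M * t)) y).1
          linarith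
        · push Not at hy2
          have h1 : y ∈ shell i j h ∩ Metric.closedBall z (M * t) :=
            ⟨hy, by rw [Metric.mem_closedBall, dist_eq_norm]; exact hy2⟩
          rw [indicator_of_mem h1]
          have := (ind_mem {y : E N | M * t < ‖y - z‖} y).1
          linarith
      · rw [indicator_of_notMem hy]
        exact add_nonneg (ind_mem _ _).1 (ind_mem _ _).1
  have hA : Real.exp (L * t) * (C * Real.exp (-((M * t) ^ 2 / (8 * t)))) ≤ C * Real.exp (-t) := by
    have e1 : (M * t) ^ 2 / (8 * t) = M ^ 2 * t / 8 := by field_simp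
    rw [e1, mul_left_comm, ← Real.exp_add]
    refine mul_le_mul_of_nonneg_left (Real.exp_le_exp.2 ?_) hC.le
    have h1 : L + 1 ≤ M ^ 2 / 8 := by rw [hM]; nlinarith
    nlinarith
  have hB : Real.exp (L * t) * V ≤ 2 * (2 * M + h) ^ N * (t ^ N * Real.exp (-t)) := by
    have h1 : 2 * (M * t) + h ≤ (2 * M + h) * t := by nlinarith
    have h2 : 2 * (M * t) ≤ (2 * M + h) * t := by nlinarith
    have h3 : (2 * (M * t)) ^ (N - 1) ≤ ((2 * M + h) * t) ^ (N - 1) :=
      pow_le_pow_left₀ (by positivity) h2 _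
    have h4 : V ≤ ((2 * M + h) * t) ^ (N - 1) * (2 * (((2 * M + h) * t) / Real.exp (ρ ^ 2))) := by
      rw [hV]
      refine mul_le_mul h3 ?_ (by positivity) (by positivity)
      refine mul_le_mul_of_nonneg_left ?_ (by norm_num)
      exact div_le_div_of_nonneg_right h1 (Real.exp_pos _).le
    have h5 : ((2 * M + h) * t) ^ (N - 1) * (2 * (((2 * M + h) * t) / Real.exp (ρ ^ 2))) =
        2 * ((2 * M + h) * t) ^ N * Real.exp (-(ρ ^ 2)) := by
      have : ((2 * M + h) * t) ^ N = ((2 * M + h) * t) ^ (N - 1) * ((2 * M + h) * t) := by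
        rw [← pow_succ, Nat.sub_add_cancel hN]
      rw [this, Real.exp_neg]
      field_simp
    rw [h5] at h4
    have h6 : Real.exp (L * t) * Real.exp (-(ρ ^ 2)) ≤ Real.exp (-t) := by
      rw [← Real.exp_add]
      refine Real.exp_le_exp.2 ?_
      linarith
    calc Real.exp (L * t) * V ≤ Real.exp (L * t) *
          (2 * ((2 * M + h) * t) ^ N * Real.exp (-(ρ ^ 2))) :=
          mul_le_mul_of_nonneg_left h4 (Real.exp_pos _).le
      _ = 2 * ((2 * M + h) * t) ^ N * (Real.exp (L * t) * Real.exp (-(ρ ^ 2))) := by ring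
      _ ≤ 2 * ((2 * M + h) * t) ^ N * Real.exp (-t) :=
          mul_le_mul_of_nonneg_left h6 (by positivity)
      _ = _ := by rw [mul_pow]; ring
  have hexp := Real.exp_pos (L * t)
  calc Real.exp (L * t) * P t ((shell i j h).indicator fun _ => (1:ℝ)) z
      ≤ Real.exp (L * t) * (V + C * Real.exp (-((M * t) ^ 2 / (8 * t)))) :=
        mul_le_mul_of_nonneg_left (hS.trans (add_le_add hP1 hP2)) hexp.le
    _ = Real.exp (L * t) * V + Real.exp (L * t) * (C * Real.exp (-((M * t) ^ 2 / (8 * t)))) :=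
        mul_add _ _ _
    _ ≤ C * Real.exp (-t) + 2 * (2 * M + h) ^ N * (t ^ N * Real.exp (-t)) := by linarith
    _ ≤ ε := ht1 t ht1'

theorem diff_small {f : ℝ → ℝ} {L : ℝ} (hf : NL f L) {i j : Fin N} (hij : i ≠ j)
    {u : ℝ → E N → ℝ} (hu : Mild f u) (hu0 : ∀ x, u 0 x = (horn i j).indicator (fun _ => (1:ℝ)) x)
    {v : E N} (hvj : v j = 0) (hvi : 0 ≤ v i) {ε : ℝ} (hε : 0 < ε) :
    ∃ t0, ∀ t ≥ t0, ∀ z, |u t z - u t (z + v)| ≤ ε := by
  obtain ⟨c, hc, hspread⟩ := exists_spread (E := E N) hf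
  obtain ⟨t1, ht1, hsp⟩ := hspread ε hε
  obtain ⟨t2, ht2, hdec⟩ := decay hij hc hf.hL hvi hε
  refine ⟨max t1 t2, fun t ht z => ?_⟩
  have htt1 : t1 ≤ t := (le_max_left _ _).trans ht
  have htt2 : t2 ≤ t := (le_max_right _ _).trans ht
  have ht0 : 0 ≤ t := by linarith
  have hv := hu.translate v
  have hmemv : ∀ x : E N, x + v ∈ horn i j → x ∈ horn i j := by
    intro x hx
    simp only [horn, mem_ofPred_eq, PiLp.add_apply, hvj, add_zero] at hx ⊢
    linarith
  have hle : ∀ x, (fun t x => u t (x + v)) 0 x ≤ u 0 x := by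
    intro x
    simp only [hu0]
    by_cases hx : x + v ∈ horn i j
    · rw [indicator_of_mem hx, indicator_of_mem (hmemv x hx)]
    · rw [indicator_of_notMem hx]
      exact (ind_mem _ _).1
  have hge : u t (z + v) ≤ u t z := Mild.le_of_le hf hu hv hle ht0 z
  rw [abs_of_nonneg (sub_nonneg.2 hge)]
  by_cases hcase : ∃ p : E N, Metric.closedBall p 1 ⊆ horn i j ∧ ‖z + v - p‖ ≤ c * t
  · obtain ⟨p, hp1, hp2⟩ := hcase
    have h1 := hsp t htt1 u hu (z + v) p (fun x hx => by rw [hu0, indicator_of_mem (hp1 hx)]) hp2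
    have h2 := (hu.mem t z).2
    linarith
  · push Not at hcase
    obtain ⟨hct, hdec'⟩ := hdec t htt2
    have hz : Real.exp ((c * t - 3) ^ 2) < z i + v i := by
      by_contra hlt
      push Not at hlt
      set q : E N := z + v + ((c * t - 3) * sg (z j)) • ev j with hq
      have hqi : q i = z i + v i := by simp [hq, ev_ne hij]
      have hqj : q j = z j + (c * t - 3) * sg (z j) := by simp [hq, ev_same, hvj]
      have hqU : q ∈ horn i j := by
        simp only [horn, mem_ofPred_eq]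
        rw [hqi]
        refine hlt.trans (Real.exp_le_exp.2 ?_)
        rw [← sq_abs (q j), hqj, abs_add_sg _ (by linarith)]
        refine pow_le_pow_left₀ (by linarith) ?_ 2
        have := abs_nonneg (z j)
        linarith
      obtain ⟨p', hp1, hp2⟩ := exists_ball hij hqU
      have h1 := hcase p' hp1
      have h2 : ‖z + v - p'‖ ≤ c * t := by
        have e1 : z + v - p' = (q - p') - ((c * t - 3) * sg (z j)) • ev j := by rw [hq]; abel
        rw [e1]
        calc _ ≤ ‖q - p'‖ + ‖((c * t - 3) * sg (z j)) • (ev j : E N)‖ := norm_sub_le _ _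
          _ ≤ 3 + (c * t - 3) := by
            refine add_le_add hp2 ?_
            rw [norm_smul, norm_ev, mul_one, Real.norm_eq_abs, abs_mul, sg_abs, mul_one,
              abs_of_nonneg (by linarith)]
          _ = c * t := by ring
      linarith
    have h1 := Mild.sub_le hf hu hv hle ht0 z
    refine h1.trans ?_
    have h2 := hdec' z hz
    have h3 : (fun y => u 0 y - (fun t x => u t (x + v)) 0 y) =
        (shell i j (v i)).indicator fun _ => (1:ℝ) := by
      funext y
      simp only [hu0]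
      have e1 : (y + v) i = y i + v i := rfl
      have e2 : (y + v) j = y j := by simp [hvj]
      by_cases hy1 : y ∈ horn i j
      · by_cases hy2 : y + v ∈ horn i j
        · have hy3 : y ∉ shell i j (v i) := by
            intro hy3
            have := hy3.2
            simp only [horn, mem_ofPred_eq] at hy2
            rw [e1, e2] at hy2
            linarith
          rw [indicator_of_mem hy1, indicator_of_mem hy2, indicator_of_notMem hy3, sub_self]
        · have hy3 : y ∈ shell i j (v i) := by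
            refine ⟨hy1, ?_⟩
            simp only [horn, mem_ofPred_eq] at hy2
            rw [e1, e2] at hy2
            push Not at hy2
            exact hy2
          rw [indicator_of_mem hy1, indicator_of_notMem hy2, indicator_of_mem hy3, sub_zero]
      · have hy2 : y + v ∉ horn i j := fun h => hy1 (hmemv y h)
        have hy3 : y ∉ shell i j (v i) := fun h => hy1 h.1
        rw [indicator_of_notMem hy1, indicator_of_notMem hy2, indicator_of_notMem hy3, sub_self]
    rw [h3]
    exact h2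

theorem diff_small' {f : ℝ → ℝ} {L : ℝ} (hf : NL f L) {i j : Fin N} (hij : i ≠ j)
    {u : ℝ → E N → ℝ} (hu : Mild f u) (hu0 : ∀ x, u 0 x = (horn i j).indicator (fun _ => (1:ℝ)) x)
    {v : E N} (hvj : v j = 0) {ε : ℝ} (hε : 0 < ε) :
    ∃ t0, ∀ t ≥ t0, ∀ z, |u t z - u t (z + v)| ≤ ε := by
  rcases le_total 0 (v i) with h | h
  · exact diff_small hf hij hu hu0 hvj h hε
  · obtain ⟨t0, ht0⟩ := diff_small hf hij hu hu0 (v := -v) (by simp [hvj]) (by simp [h]) hε
    refine ⟨t0, fun t ht z => ?_⟩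
    have := ht0 t ht (z + v)
    rw [add_neg_cancel_right] at this
    rwa [abs_sub_comm]

end Pool.Agent.Helper66.KPP
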