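import Mathlib

/-!
# Definitions for MP_97d5d8_an

Asymptotic one-dimensional symmetry for the Fisher-KPP equation `∂ₜu = Δu + f(u)` in `ℝᴺ` with
initial datum the indicator of a set `U`.
-/

open MeasureTheory Filter Topology Set

namespace Pool.Agent.Helper66.KPP

/-- Euclidean `N`-space. -/
abbrev E (N : ℕ) := EuclideanSpace ℝ (Fin N)

/-- `f ∈ C¹([0,1])` is of Fisher-KPP type: `f(0) = f(1) = 0`, `f'(0) > 0` and
`0 < f(s) ≤ f'(0) s` for `s ∈ (0,1)`. -/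
structure IsFisherKPP (f : ℝ → ℝ) : Prop where
  contDiffOn : ContDiffOn ℝ 1 f (Icc 0 1)
  zero : f 0 = 0
  one : f 1 = 0
  deriv_pos : 0 < derivWithin f (Icc 0 1) 0
  pos : ∀ s ∈ Ioo (0 : ℝ) 1, 0 < f s
  le : ∀ s ∈ Ioo (0 : ℝ) 1, f s ≤ derivWithin f (Icc 0 1) 0 * s

/-- The Gauss-Weierstrass kernel `(4πt)^(-N/2) exp(-|z|²/(4t))`. -/
noncomputable def heatKernel {N : ℕ} (t : ℝ) (z : E N) : ℝ :=
  (4 * Real.pi * t) ^ (-(N : ℝ) / 2) * Real.exp (-‖z‖ ^ 2 / (4 * t))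

/-- `e^{tΔ}φ`, the heat semigroup. -/
noncomputable def heat {N : ℕ} (t : ℝ) (φ : E N → ℝ) (x : E N) : ℝ :=
  ∫ y, heatKernel t (x - y) * φ y

/-- `u` is the (mild) solution with values in `[0,1]` of `∂ₜu = Δu + f(u)` for `t > 0`,
`x ∈ ℝᴺ`, with `u(0,·) = 𝟙_U`: Duhamel's formula
`u(t) = e^{tΔ}𝟙_U + ∫₀ᵗ e^{(t-s)Δ} f(u(s)) ds`. -/
structure IsSolution {N : ℕ} (f : ℝ → ℝ) (U : Set (E N)) (u : ℝ → E N → ℝ) : Prop where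
  measurable : Measurable (Function.uncurry u)
  mem_Icc : ∀ t > 0, ∀ x, u t x ∈ Icc (0 : ℝ) 1
  duhamel : ∀ t > 0, ∀ x, u t x = heat t (U.indicator fun _ => 1) x +
    ∫ s in (0 : ℝ)..t, heat (t - s) (fun y => f (u s y)) x

/-- `Ω(u)`: all `ψ ∈ L^∞` with `u(tₙ, xₙ + ·) → ψ` in `L^∞_loc` for some `tₙ → +∞` and some
`xₙ`. -/
def OmegaLimit {N : ℕ} (u : ℝ → E N → ℝ) : Set (E N → ℝ) :=
  {ψ | MemLp ψ ⊤ volume ∧ ∃ (t : ℕ → ℝ) (x : ℕ → E N), Tendsto t atTop atTop ∧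
    ∀ R : ℝ, Tendsto (fun n => eLpNorm (fun y => u (t n) (x n + y) - ψ y) ⊤
      (volume.restrict (Metric.ball 0 R))) atTop (𝓝 0)}

/-- `ψ(x) = Ψ(x · e)` for some unit vector `e` (as elements of `L^∞`). -/
def IsOneDim {N : ℕ} (ψ : E N → ℝ) : Prop :=
  ∃ e : E N, ‖e‖ = 1 ∧ ∃ Ψ : ℝ → ℝ, ψ =ᵐ[volume] fun x => Ψ (inner ℝ x e)

/-- Asymptotic one-dimensional symmetry. -/
def AsymptoticallyOneDim {N : ℕ} (u : ℝ → E N → ℝ) : Prop :=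
  ∀ ψ ∈ OmegaLimit u, IsOneDim ψ

/-- `U_δ = {x ∈ U : dist(x, ∂U) ≥ δ}`. -/
def inner_δ {N : ℕ} (U : Set (E N)) (δ : ℝ) : Set (E N) :=
  {x ∈ U | ENNReal.ofReal δ ≤ Metric.infEDist x (frontier U)}

/-- Condition (D): `d_H(U, U_δ) < +∞` for some `δ > 0`. -/
def ConditionD {N : ℕ} (U : Set (E N)) : Prop :=
  ∃ δ > 0, Metric.hausdorffEDist U (inner_δ U δ) < ⊤

/-- `π_x`, the set of projections of `x` on `closure U`. -/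
def proj {N : ℕ} (U : Set (E N)) (x : E N) : Set (E N) :=
  {ξ ∈ closure U | edist x ξ = Metric.infEDist x U}

/-- The opening function `𝒪(x)`, with values in `[-∞, +∞]`. -/
noncomputable def opening {N : ℕ} (U : Set (E N)) (x : E N) : EReal :=
  ⨆ ξ ∈ proj U x, ⨆ y ∈ U \ {ξ},
    ((inner ℝ ((1 / ‖x - ξ‖) • (x - ξ)) ((1 / ‖y - ξ‖) • (y - ξ)) : ℝ) : EReal)

/-- Condition (B): `lim_{R → +∞} sup_{dist(x,U) = R} 𝒪(x) ≤ 0`. -/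
def ConditionB {N : ℕ} (U : Set (E N)) : Prop :=
  ∃ ℓ : EReal, ℓ ≤ 0 ∧ Tendsto
    (fun R : ℝ => ⨆ x ∈ {x : E N | Metric.infEDist x U = ENNReal.ofReal R}, opening U x)
    atTop (𝓝 ℓ)

end Pool.Agent.Helper66.KPP
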