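import Mathlib

/-!
# The Gaussian measure and the heat semigroup on bounded measurable functions
-/

open MeasureTheory Filter Topology Set
open scoped RealInnerProductSpace

set_option linter.unusedSectionVars false
set_option linter.style.haveILetI false
set_option linter.unusedVariables false

namespace Pool.Agent.Helper66.KPP

section Gauss

variable {E : Type*} [NormedAddCommGroup E] [InnerProductSpace ℝ E] [FiniteDimensional ℝ E]
  [MeasurableSpace E] [BorelSpace E]

/-- standard Gaussian density -/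
noncomputable def gdens (z : E) : ℝ :=
  (2 * Real.pi) ^ (-(Module.finrank ℝ E : ℝ) / 2) * Real.exp (-‖z‖ ^ 2 / 2)

theorem gdens_nonneg (z : E) : 0 ≤ gdens z := by
  unfold gdens; positivity

theorem measurable_gdens : Measurable (gdens : E → ℝ) := by
  unfold gdens; fun_prop

theorem integral_gdens : ∫ z : E, gdens z = 1 := by
  unfold gdens
  rw [integral_const_mul]
  have h := GaussianFourier.integral_rexp_neg_mul_sq_norm (V := E) (b := 1 / 2) (by norm_num)
  have h2 : (fun z : E => Real.exp (-‖z‖ ^ 2 / 2)) = fun z : E => Real.exp (-(1 / 2) * ‖z‖ ^ 2) := by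
    funext z; congr 1; ring
  rw [h2, h, show Real.pi / (1 / 2) = 2 * Real.pi by ring, ← Real.rpow_add (by positivity)]
  rw [show -(Module.finrank ℝ E : ℝ) / 2 + (Module.finrank ℝ E : ℝ) / 2 = 0 by ring, Real.rpow_zero]

theorem integrable_gdens : Integrable (gdens : E → ℝ) := by
  by_contra h
  have := integral_undef h
  rw [integral_gdens] at this
  exact one_ne_zero this

/-- the standard Gaussian measure -/
noncomputable def gau (E : Type*) [NormedAddCommGroup E] [InnerProductSpace ℝ E]
    [FiniteDimensional ℝ E] [MeasurableSpace E] [BorelSpace E] : Measure E :=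
  volume.withDensity fun z => ENNReal.ofReal (gdens z)

theorem integral_gau (φ : E → ℝ) : ∫ z, φ z ∂(gau E) = ∫ z, gdens z * φ z := by
  unfold gau
  rw [integral_withDensity_eq_integral_toReal_smul]
  · refine integral_congr_ae (Eventually.of_forall fun z => ?_)
    simp only [smul_eq_mul]
    rw [ENNReal.toReal_ofReal (gdens_nonneg z)]
  · exact measurable_gdens.ennreal_ofReal
  · exact Eventually.of_forall fun z => ENNReal.ofReal_lt_top

theorem integral_gau_complex (φ : E → ℂ) : ∫ z, φ z ∂(gau E) = ∫ z, (gdens z : ℂ) * φ z := by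
  unfold gau
  rw [integral_withDensity_eq_integral_toReal_smul]
  · refine integral_congr_ae (Eventually.of_forall fun z => ?_)
    simp only
    rw [ENNReal.toReal_ofReal (gdens_nonneg z)]
    simp
  · exact measurable_gdens.ennreal_ofReal
  · exact Eventually.of_forall fun z => ENNReal.ofReal_lt_top

instance : IsProbabilityMeasure (gau E) := by
  constructor
  unfold gau
  rw [withDensity_apply _ MeasurableSet.univ, setLIntegral_univ,
    ← ofReal_integral_eq_lintegral_ofReal integrable_gdens (Eventually.of_forall gdens_nonneg),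
    integral_gdens, ENNReal.ofReal_one]

theorem charFun_gau (ξ : E) : charFun (gau E) ξ = Complex.exp (-(‖ξ‖ : ℂ) ^ 2 / 2) := by
  rw [charFun_apply, integral_gau_complex]
  have h := GaussianFourier.integral_cexp_neg_mul_sq_norm_add (V := E) (b := 1 / 2)
    (by norm_num) Complex.I ξ
  have h1 : (fun z : E => (gdens z : ℂ) * Complex.exp ((⟪z, ξ⟫ : ℝ) * Complex.I)) =
      fun z : E => (((2 * Real.pi) ^ (-(Module.finrank ℝ E : ℝ) / 2) : ℝ) : ℂ) *
        Complex.exp (-(1 / 2) * (‖z‖ : ℂ) ^ 2 + Complex.I * (⟪ξ, z⟫ : ℝ)) := by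
    funext z
    unfold gdens
    push_cast
    rw [mul_assoc, ← Complex.exp_add, real_inner_comm]
    congr 2
    ring
  rw [h1, integral_const_mul, h]
  have h2 : ((Real.pi : ℂ) / (1 / 2)) ^ ((Module.finrank ℝ E : ℂ) / 2) =
      (((2 * Real.pi) ^ ((Module.finrank ℝ E : ℝ) / 2) : ℝ) : ℂ) := by
    rw [Complex.ofReal_cpow (by positivity)]
    push_cast
    congr 1
    ring
  rw [h2, ← mul_assoc, ← Complex.ofReal_mul, ← Real.rpow_add (by positivity),
    show -(Module.finrank ℝ E : ℝ) / 2 + (Module.finrank ℝ E : ℝ) / 2 = 0 by ring, Real.rpow_zero]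
  rw [Complex.ofReal_one, one_mul, Complex.I_sq]
  congr 1
  ring

theorem gau_conv (a b : ℝ) (ha : 0 ≤ a) (hb : 0 ≤ b) :
    ((gau E).map (fun z => √a • z)).conv ((gau E).map (fun z => √b • z)) =
      (gau E).map (fun z => √(a + b) • z) := by
  haveI h1 : IsProbabilityMeasure ((gau E).map (fun z => √a • z)) :=
    Measure.isProbabilityMeasure_map (by fun_prop)
  haveI h2 : IsProbabilityMeasure ((gau E).map (fun z => √b • z)) :=
    Measure.isProbabilityMeasure_map (by fun_prop)
  haveI h3 : IsProbabilityMeasure ((gau E).map (fun z => √(a + b) • z)) :=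
    Measure.isProbabilityMeasure_map (by fun_prop)
  refine Measure.ext_of_charFun ?_
  funext ξ
  rw [charFun_conv, charFun_map_smul, charFun_map_smul, charFun_map_smul, charFun_gau, charFun_gau,
    charFun_gau, ← Complex.exp_add]
  congr 1
  rw [norm_smul, norm_smul, norm_smul]
  have e : ∀ c : ℝ, 0 ≤ c → (((‖√c‖ * ‖ξ‖ : ℝ)) : ℂ) ^ 2 = (c : ℂ) * (‖ξ‖ : ℂ) ^ 2 := by
    intro c hc
    rw [← Complex.ofReal_pow, mul_pow, Real.norm_eq_abs, sq_abs, Real.sq_sqrt hc]
    push_cast
    ring
  rw [e a ha, e b hb, e (a + b) (add_nonneg ha hb)]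
  push_cast
  ring

/-- The heat semigroup (probabilistic form). -/
noncomputable def P (t : ℝ) (φ : E → ℝ) (x : E) : ℝ := ∫ z, φ (x + √(2 * t) • z) ∂(gau E)

theorem P_of_nonpos {t : ℝ} (ht : t ≤ 0) (φ : E → ℝ) (x : E) : P t φ x = φ x := by
  unfold P
  rw [Real.sqrt_eq_zero_of_nonpos (by linarith)]
  simp

theorem P_zero (φ : E → ℝ) (x : E) : P 0 φ x = φ x := P_of_nonpos le_rfl φ x

theorem measurable_P {α : Type*} [MeasurableSpace α] {τ : α → ℝ} {φ : α → E → ℝ} {ξ : α → E}
    (hτ : Measurable τ) (hφ : Measurable (Function.uncurry φ)) (hξ : Measurable ξ) :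
    Measurable fun a => P (τ a) (φ a) (ξ a) := by
  unfold P
  have h : Measurable fun p : α × E => φ p.1 (ξ p.1 + √(2 * τ p.1) • p.2) := by
    have h1 : Measurable fun p : α × E => √(2 * τ p.1) :=
      (Real.continuous_sqrt.measurable).comp ((hτ.comp measurable_fst).const_mul 2)
    have h2 : Measurable fun p : α × E => (p.1, ξ p.1 + √(2 * τ p.1) • p.2) :=
      measurable_fst.prodMk ((hξ.comp measurable_fst).add (h1.smul measurable_snd))
    exact hφ.comp h2
  exact (h.stronglyMeasurable.integral_prod_right').measurable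

theorem measurable_shift {φ : E → ℝ} (hφ : Measurable φ) (x : E) (c : ℝ) :
    Measurable fun z => φ (x + c • z) := by
  refine hφ.comp ?_
  fun_prop

theorem integrable_of_bdd {α : Type*} [MeasurableSpace α] {ν : Measure α} [IsFiniteMeasure ν]
    {φ : α → ℝ} (hφ : Measurable φ) {M : ℝ} (hM : ∀ x, |φ x| ≤ M) : Integrable φ ν :=
  Integrable.of_bound hφ.aestronglyMeasurable M (Eventually.of_forall fun x => by
    rw [Real.norm_eq_abs]; exact hM x)

theorem integrable_shift {φ : E → ℝ} (hφ : Measurable φ) {M : ℝ} (hM : ∀ x, |φ x| ≤ M)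
    (x : E) (c : ℝ) : Integrable (fun z => φ (x + c • z)) (gau E) :=
  integrable_of_bdd (measurable_shift hφ x c) fun z => hM _

theorem P_abs_le {φ : E → ℝ} {M : ℝ} (hM : ∀ x, |φ x| ≤ M) (t : ℝ) (x : E) :
    |P t φ x| ≤ M := by
  unfold P
  have := norm_integral_le_of_norm_le_const (μ := gau E) (f := fun z => φ (x + √(2 * t) • z))
    (C := M) (Eventually.of_forall fun z => by rw [Real.norm_eq_abs]; exact hM _)
  simpa using this

theorem P_mono {φ ψ : E → ℝ} (hφ : Measurable φ) (hψ : Measurable ψ) {M M' : ℝ}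
    (hM : ∀ x, |φ x| ≤ M) (hM' : ∀ x, |ψ x| ≤ M') (h : ∀ x, φ x ≤ ψ x) (t : ℝ) (x : E) :
    P t φ x ≤ P t ψ x :=
  integral_mono (integrable_shift hφ hM x _) (integrable_shift hψ hM' x _) fun z => h _

theorem P_nonneg {φ : E → ℝ} (h : ∀ x, 0 ≤ φ x) (t : ℝ) (x : E) : 0 ≤ P t φ x :=
  integral_nonneg fun z => h _

theorem P_const (c t : ℝ) (x : E) : P t (fun _ => c) x = c := by
  unfold P; simp

theorem P_le_const {φ : E → ℝ} (hφ : Measurable φ) {M : ℝ}
    (hM : ∀ x, |φ x| ≤ M) {c : ℝ} (h : ∀ x, φ x ≤ c) (t : ℝ) (x : E) : P t φ x ≤ c := by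
  have := P_mono hφ measurable_const hM (M' := |c|) (ψ := fun _ => c) (fun _ => le_rfl) h t x
  rwa [P_const] at this

theorem const_le_P {φ : E → ℝ} (hφ : Measurable φ) {M : ℝ}
    (hM : ∀ x, |φ x| ≤ M) {c : ℝ} (h : ∀ x, c ≤ φ x) (t : ℝ) (x : E) : c ≤ P t φ x := by
  have := P_mono measurable_const hφ (M := |c|) (φ := fun _ => c) (fun _ => le_rfl) hM h t x
  rwa [P_const] at this

theorem P_add {φ ψ : E → ℝ} (hφ : Measurable φ) (hψ : Measurable ψ) {M M' : ℝ}
    (hM : ∀ x, |φ x| ≤ M) (hM' : ∀ x, |ψ x| ≤ M') (t : ℝ) (x : E) :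
    P t (fun y => φ y + ψ y) x = P t φ x + P t ψ x :=
  integral_add (integrable_shift hφ hM x _) (integrable_shift hψ hM' x _)

theorem P_sub {φ ψ : E → ℝ} (hφ : Measurable φ) (hψ : Measurable ψ) {M M' : ℝ}
    (hM : ∀ x, |φ x| ≤ M) (hM' : ∀ x, |ψ x| ≤ M') (t : ℝ) (x : E) :
    P t (fun y => φ y - ψ y) x = P t φ x - P t ψ x :=
  integral_sub (integrable_shift hφ hM x _) (integrable_shift hψ hM' x _)

theorem P_const_mul (c : ℝ) (φ : E → ℝ) (t : ℝ) (x : E) :
    P t (fun y => c * φ y) x = c * P t φ x :=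
  integral_const_mul _ _

theorem P_comp {φ : E → ℝ} (hφ : Measurable φ) {M : ℝ} (hM : ∀ x, |φ x| ≤ M) {s t : ℝ}
    (hs : 0 ≤ s) (ht : 0 ≤ t) (x : E) : P s (P t φ) x = P (s + t) φ x := by
  have hψ : Measurable fun w : E => φ (x + w) := hφ.comp (measurable_const.add measurable_id)
  have key := gau_conv (E := E) (2 * s) (2 * t) (by positivity) (by positivity)
  haveI h1 : IsProbabilityMeasure ((gau E).map (fun z => √(2 * s) • z)) :=
    Measure.isProbabilityMeasure_map (by fun_prop)
  haveI h2 : IsProbabilityMeasure ((gau E).map (fun z => √(2 * t) • z)) :=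
    Measure.isProbabilityMeasure_map (by fun_prop)
  have e1 : P (s + t) φ x = ∫ w, φ (x + w) ∂((gau E).map (fun z => √(2 * s + 2 * t) • z)) := by
    rw [integral_map (by fun_prop) hψ.aestronglyMeasurable]
    unfold P
    rw [mul_add]
  rw [e1, ← key, integral_conv, integral_map (by fun_prop)]
  · unfold P
    refine integral_congr_ae (Eventually.of_forall fun z => ?_)
    simp only
    rw [integral_map (by fun_prop)]
    · refine integral_congr_ae (Eventually.of_forall fun z' => ?_)
      simp only [add_assoc]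
    · exact (hψ.comp (measurable_const.add measurable_id)).aestronglyMeasurable
  · refine StronglyMeasurable.aestronglyMeasurable ?_
    have h3 : Measurable fun p : E × E => φ (x + (p.1 + p.2)) :=
      hψ.comp (measurable_fst.add measurable_snd)
    exact h3.stronglyMeasurable.integral_prod_right'
  · refine integrable_of_bdd ?_ (M := M) fun w => hM _
    exact hψ

theorem P_translate (φ : E → ℝ) (v : E) (t : ℝ) (x : E) :
    P t (fun y => φ (y + v)) x = P t φ (x + v) := by
  unfold P
  refine integral_congr_ae (Eventually.of_forall fun z => ?_)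
  simp only
  congr 1
  abel

/-- heat kernel (general space) -/
noncomputable def hK (t : ℝ) (z : E) : ℝ :=
  (4 * Real.pi * t) ^ (-(Module.finrank ℝ E : ℝ) / 2) * Real.exp (-‖z‖ ^ 2 / (4 * t))

theorem P_eq_kernel {t : ℝ} (ht : 0 < t) (φ : E → ℝ) (x : E) :
    P t φ x = ∫ y, hK t (x - y) * φ y := by
  have hc : 0 < √(2 * t) := Real.sqrt_pos.2 (by positivity)
  unfold P
  rw [integral_gau]
  have e1 : ∫ y, hK t (x - y) * φ y = ∫ w, hK t w * φ (x + w) := by
    rw [← integral_add_left_eq_self (fun y => hK t (x - y) * φ y) x]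
    refine integral_congr_ae (Eventually.of_forall fun w => ?_)
    simp only
    congr 1
    unfold hK
    rw [show x - (x + w) = -w by abel, norm_neg]
  rw [e1]
  have e2 := Measure.integral_comp_smul (μ := (volume : Measure E))
    (fun w => hK t w * φ (x + w)) (√(2 * t))
  have e3 : (fun z : E => hK t (√(2 * t) • z) * φ (x + √(2 * t) • z)) =
      fun z : E => |(√(2 * t) ^ Module.finrank ℝ E)⁻¹| * (gdens z * φ (x + √(2 * t) • z)) := by
    funext z
    rw [← mul_assoc]
    congr 1
    unfold hK gdens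
    rw [← mul_assoc]
    have h4 : ‖√(2 * t) • z‖ ^ 2 = 2 * t * ‖z‖ ^ 2 := by
      rw [norm_smul, mul_pow, Real.norm_eq_abs, sq_abs, Real.sq_sqrt (by positivity)]
    rw [h4]
    have h5 : -(2 * t * ‖z‖ ^ 2) / (4 * t) = -‖z‖ ^ 2 / 2 := by
      field_simp; ring
    rw [h5]
    congr 1
    rw [abs_of_pos (by positivity), show 4 * Real.pi * t = (2 * t) * (2 * Real.pi) by ring,
      Real.mul_rpow (by positivity) (by positivity)]
    congr 1
    rw [Real.sqrt_eq_rpow, ← Real.rpow_natCast, ← Real.rpow_mul (by positivity),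
      ← Real.rpow_neg (by positivity)]
    congr 1
    ring
  rw [e3, integral_const_mul, smul_eq_mul] at e2
  exact mul_left_cancel₀ (by positivity) e2

end Gauss

end Pool.Agent.Helper66.KPP
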