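import Pool.Agent.Helper66.KPP.Defs

/-!
# Geometry of the horn-complement `{x | x i ≤ exp (x j ^ 2)}`
-/

open MeasureTheory Filter Topology Set

set_option linter.unusedVariables false

namespace Pool.Agent.Helper66.KPP

variable {N : ℕ}

/-- the counterexample: the complement of a thin horn -/
def horn (i j : Fin N) : Set (E N) := {x | x i ≤ Real.exp ((x j) ^ 2)}

/-- unit vector -/
noncomputable def ev (i : Fin N) : E N := EuclideanSpace.single i (1:ℝ)

theorem ev_same (i : Fin N) : (ev i : E N) i = 1 := by simp [ev]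

theorem ev_ne {i k : Fin N} (h : k ≠ i) : (ev i : E N) k = 0 := by simp [ev, h]

theorem norm_ev (i : Fin N) : ‖(ev i : E N)‖ = 1 := by simp [ev]

theorem inner_ev (x : E N) (i : Fin N) : inner ℝ x (ev i) = x i := by
  simp [ev, EuclideanSpace.inner_single_right]

theorem coord_le (x : E N) (i : Fin N) : |x i| ≤ ‖x‖ := by
  have := PiLp.norm_apply_le x i
  rwa [Real.norm_eq_abs] at this

theorem isClosed_horn (i j : Fin N) : IsClosed (horn i j) := by
  unfold horn
  refine isClosed_le (by fun_prop) (by fun_prop)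

theorem isConnected_horn {i j : Fin N} (hij : i ≠ j) : IsConnected (horn i j) := by
  have h1 : IsConnected {x : E N | x i ≤ 0} := by
    have hc : Convex ℝ {x : E N | x i ≤ 0} := by
      intro x hx y hy a b ha hb hab
      simp only [mem_ofPred_eq, PiLp.add_apply, PiLp.smul_apply, smul_eq_mul] at hx hy ⊢
      nlinarith
    exact ⟨⟨0, by simp⟩, hc.isPreconnected⟩
  have h2 : Continuous fun x : E N => x + Real.exp ((x j) ^ 2) • ev i := by fun_prop
  have h3 := h1.image _ h2.continuousOn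
  convert! h3 using 1
  ext y
  constructor
  · intro hy
    refine ⟨y - Real.exp ((y j) ^ 2) • ev i, ?_, ?_⟩
    · simp only [mem_ofPred_eq, PiLp.sub_apply, PiLp.smul_apply, ev_same, smul_eq_mul, mul_one]
      exact sub_nonpos.2 hy
    · have : (y - Real.exp ((y j) ^ 2) • ev i) j = y j := by
        simp [ev_ne hij.symm]
      simp only [this]
      abel
  · rintro ⟨x, hx, rfl⟩
    have h4 : (x + Real.exp ((x j) ^ 2) • ev i) j = x j := by simp [ev_ne hij.symm]
    have h5 : (x + Real.exp ((x j) ^ 2) • ev i) i = x i + Real.exp ((x j) ^ 2) := by simp [ev_same]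
    simp only [horn, mem_ofPred_eq] at hx ⊢
    rw [h4, h5]
    linarith

/-- sign, with `sg 0 = 1` -/
noncomputable def sg (s : ℝ) : ℝ := if 0 ≤ s then 1 else -1

theorem sg_abs (s : ℝ) : |sg s| = 1 := by unfold sg; split_ifs <;> simp

theorem abs_add_sg (s : ℝ) {c : ℝ} (hc : 0 ≤ c) : |s + c * sg s| = |s| + c := by
  unfold sg
  split_ifs with h
  · rw [mul_one, abs_of_nonneg h, abs_of_nonneg (by linarith)]
  · push Not at h
    rw [abs_of_neg h, abs_of_nonpos (by linarith)]; ring

/-- each point of the horn complement is at distance `≤ 3` from the centre of a unit ball in it -/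
theorem exists_ball {i j : Fin N} (hij : i ≠ j) {p : E N} (hp : p ∈ horn i j) :
    ∃ p', Metric.closedBall p' 1 ⊆ horn i j ∧ ‖p - p'‖ ≤ 3 := by
  set p' : E N := p - ev i + (2 * sg (p j)) • ev j with hp'
  have h1 : p' i = p i - 1 := by simp [hp', ev_same, ev_ne hij]
  have h2 : p' j = p j + 2 * sg (p j) := by simp [hp', ev_same, ev_ne hij.symm]
  refine ⟨p', fun q hq => ?_, ?_⟩
  · rw [Metric.mem_closedBall, dist_eq_norm] at hq
    have h3 := (coord_le (q - p') i).trans hq
    have h4 := (coord_le (q - p') j).trans hq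
    rw [PiLp.sub_apply, h1] at h3
    rw [PiLp.sub_apply] at h4
    have h5 : |p' j| = |p j| + 2 := by rw [h2]; exact abs_add_sg _ (by norm_num)
    have h6 : |p j| ≤ |q j| := by
      have := abs_sub_abs_le_abs_sub (p' j) (q j)
      rw [abs_sub_comm] at this
      linarith
    have h7 : (p j) ^ 2 ≤ (q j) ^ 2 := sq_le_sq.2 h6
    have h8 := (abs_le.1 h3).2
    simp only [horn, mem_ofPred_eq] at hp ⊢
    have h9 := Real.exp_le_exp.2 h7
    linarith
  · have h3 : p - p' = ev i - (2 * sg (p j)) • ev j := by rw [hp']; abel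
    rw [h3]
    calc ‖ev i - (2 * sg (p j)) • ev j‖ ≤ ‖(ev i : E N)‖ + ‖(2 * sg (p j)) • (ev j : E N)‖ :=
          norm_sub_le _ _
      _ = 3 := by
        rw [norm_smul, norm_ev, norm_ev, Real.norm_eq_abs, abs_mul, sg_abs]
        norm_num

theorem conditionD_horn {i j : Fin N} (hij : i ≠ j) : ConditionD (horn i j) := by
  refine ⟨1, one_pos, ?_⟩
  refine lt_of_le_of_lt (b := ENNReal.ofReal 3) ?_ ENNReal.ofReal_lt_top
  refine Metric.hausdorffEDist_le_of_mem_edist (fun p hp => ?_) (fun p hp => ⟨p, hp.1, by simp⟩)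
  obtain ⟨p', h1, h2⟩ := exists_ball hij hp
  refine ⟨p', ⟨h1 (Metric.mem_closedBall_self zero_le_one), ?_⟩, ?_⟩
  · rw [Metric.le_infEDist]
    intro y hy
    rw [edist_dist]
    refine ENNReal.ofReal_le_ofReal ?_
    by_contra hlt
    push Not at hlt
    have h3 : Metric.ball p' 1 ⊆ interior (horn i j) :=
      interior_maximal (Metric.ball_subset_closedBall.trans h1) Metric.isOpen_ball
    have h4 : y ∈ interior (horn i j) := h3 (by rwa [Metric.mem_ball, dist_comm])
    exact hy.2 h4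
  · rw [edist_dist, dist_eq_norm]
    exact ENNReal.ofReal_le_ofReal h2

theorem exists_far {i j : Fin N} (hij : i ≠ j) {R : ℝ} (hR : 0 ≤ R) :
    ∃ c : ℝ, Metric.infDist (c • (ev i : E N)) (horn i j) = R := by
  have hne : (horn i j).Nonempty := (isConnected_horn hij).nonempty
  have hcont : Continuous fun c : ℝ => Metric.infDist (c • (ev i : E N)) (horn i j) :=
    (Metric.continuous_infDist_pt _).comp (by fun_prop)
  have h0 : Metric.infDist ((0:ℝ) • (ev i : E N)) (horn i j) = 0 := by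
    refine Metric.infDist_zero_of_mem ?_
    simp only [zero_smul, horn, mem_ofPred_eq, PiLp.zero_apply]
    positivity
  have h1 : R ≤ Metric.infDist ((R + Real.exp (R ^ 2)) • (ev i : E N)) (horn i j) := by
    rw [Metric.le_infDist hne]
    intro q hq
    by_contra hlt
    push Not at hlt
    rw [dist_comm, dist_eq_norm] at hlt
    have h2 := lt_of_le_of_lt (coord_le _ i) hlt
    have h3 := lt_of_le_of_lt (coord_le _ j) hlt
    simp only [PiLp.sub_apply, PiLp.smul_apply, ev_same, ev_ne hij.symm, smul_eq_mul, mul_one,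
      mul_zero, sub_zero] at h2 h3
    have h4 := (abs_lt.1 h2).1
    have h5 : (q j) ^ 2 ≤ R ^ 2 := by
      rw [sq_le_sq, abs_of_nonneg hR]; exact h3.le
    have h6 := Real.exp_le_exp.2 h5
    simp only [horn, mem_ofPred_eq] at hq
    linarith
  have h2 : R ∈ Icc (Metric.infDist ((0:ℝ) • (ev i : E N)) (horn i j))
      (Metric.infDist ((R + Real.exp (R ^ 2)) • (ev i : E N)) (horn i j)) := by
    rw [h0]; exact ⟨hR, h1⟩
  obtain ⟨c, _, hc⟩ := intermediate_value_Icc (by positivity : (0:ℝ) ≤ R + Real.exp (R ^ 2))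
    hcont.continuousOn h2
  exact ⟨c, hc⟩

theorem exp_gap {R : ℝ} (hR : 2 ≤ R) : R + Real.exp ((R / 2) ^ 2) ≤ Real.exp ((3 * R / 4) ^ 2) := by
  have e1 : (3 * R / 4) ^ 2 = (R / 2) ^ 2 + 5 * R ^ 2 / 16 := by ring
  rw [e1, Real.exp_add]
  have h1 := Real.add_one_le_exp ((R / 2) ^ 2)
  have h2 := Real.add_one_le_exp (5 * R ^ 2 / 16)
  have h3 : Real.exp ((R / 2) ^ 2) * (5 * R ^ 2 / 16 + 1) ≤
      Real.exp ((R / 2) ^ 2) * Real.exp (5 * R ^ 2 / 16) :=
    mul_le_mul_of_nonneg_left h2 (Real.exp_pos _).le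
  have h4 : 2 ≤ Real.exp ((R / 2) ^ 2) := by nlinarith
  have h5 : R ≤ 2 * (5 * R ^ 2 / 16) := by nlinarith
  have h6 : 2 * (5 * R ^ 2 / 16) ≤ Real.exp ((R / 2) ^ 2) * (5 * R ^ 2 / 16) :=
    mul_le_mul_of_nonneg_right h4 (by positivity)
  nlinarith

theorem opening_large {i j : Fin N} (hij : i ≠ j) {R : ℝ} (hR : 2 ≤ R) :
    ((1 / 2 : ℝ) : EReal) ≤
      ⨆ x ∈ {x : E N | Metric.infEDist x (horn i j) = ENNReal.ofReal R}, opening (horn i j) x := by
  have hne : (horn i j).Nonempty := (isConnected_horn hij).nonempty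
  have hR0 : 0 < R := by linarith
  obtain ⟨c, hc⟩ := exists_far hij hR0.le
  set x : E N := c • (ev i : E N) with hx
  have hxi : x i = c := by simp [hx, ev_same]
  have hxj : x j = 0 := by simp [hx, ev_ne hij.symm]
  obtain ⟨ξ, hξ, hdist⟩ := (isClosed_horn i j).exists_infDist_eq_dist hne x
  rw [hc] at hdist
  have hnorm : ‖x - ξ‖ = R := by rw [← dist_eq_norm, ← hdist]
  have hinf : Metric.infEDist x (horn i j) = ENNReal.ofReal R := by
    rw [← hc, Metric.infDist, ENNReal.ofReal_toReal (Metric.infEDist_ne_top hne)]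
  have hproj : ξ ∈ proj (horn i j) x := by
    refine ⟨subset_closure hξ, ?_⟩
    rw [hinf, edist_dist, hdist]
  -- the projection is far from the axis
  have hb : R / 2 ≤ |ξ j| := by
    by_contra hlt
    push Not at hlt
    have h1 : c > Real.exp ((3 * R / 4) ^ 2) := by
      by_contra hle
      push Not at hle
      have h2 : x + (3 * R / 4) • ev j ∈ horn i j := by
        simp only [horn, mem_ofPred_eq, PiLp.add_apply, PiLp.smul_apply, ev_same, ev_ne hij, hxi,
          hxj, smul_eq_mul, mul_zero, mul_one, add_zero, zero_add]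
        exact hle
      have h3 := Metric.infDist_le_dist_of_mem h2 (x := x)
      rw [hc, dist_eq_norm, sub_add_cancel_left, norm_neg, norm_smul, norm_ev, mul_one,
        Real.norm_eq_abs, abs_of_pos (by positivity)] at h3
      linarith
    have h2 : ξ i ≤ Real.exp ((R / 2) ^ 2) := by
      refine le_trans hξ (Real.exp_le_exp.2 ?_)
      rw [sq_le_sq, abs_of_pos (by positivity : 0 < R / 2)]
      exact hlt.le
    have h3 : c - ξ i ≤ R := by
      have := (le_abs_self _).trans (coord_le (x - ξ) i)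
      rw [hnorm, PiLp.sub_apply, hxi] at this
      exact this
    have := exp_gap hR
    linarith
  have hb0 : ξ j ≠ 0 := by
    intro h
    rw [h, abs_zero] at hb
    linarith
  -- the reflected point
  set y : E N := ξ - (2 * ξ j) • ev j with hy
  have hyi : y i = ξ i := by simp [hy, ev_ne hij]
  have hyj : y j = -ξ j := by simp [hy, ev_same]; ring
  have hyU : y ∈ horn i j := by
    simp only [horn, mem_ofPred_eq] at hξ ⊢
    rw [hyi, hyj, neg_sq]; exact hξ
  have hyξ : y - ξ = (-(2 * ξ j)) • ev j := by rw [hy, neg_smul]; abel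
  have hyne : y ≠ ξ := by
    intro h
    rw [h] at hyj
    exact hb0 (by linarith)
  have hval : (1 / 2 : ℝ) ≤ inner ℝ ((1 / ‖x - ξ‖) • (x - ξ)) ((1 / ‖y - ξ‖) • (y - ξ)) := by
    rw [real_inner_smul_left, real_inner_smul_right, hnorm, hyξ, real_inner_smul_right, inner_ev,
      PiLp.sub_apply, hxj, norm_smul, norm_ev, mul_one, Real.norm_eq_abs, abs_neg, abs_mul,
      abs_of_pos (by norm_num : (0:ℝ) < 2)]
    have h1 : 0 < |ξ j| := abs_pos.2 hb0
    have h2 : 1 / R * (1 / (2 * |ξ j|) * (-(2 * ξ j) * (0 - ξ j))) = |ξ j| / R := by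
      have h3 : -(2 * ξ j) * (0 - ξ j) = 2 * |ξ j| ^ 2 := by rw [sq_abs]; ring
      rw [h3]
      field_simp
    rw [h2, le_div_iff₀ hR0]
    linarith
  calc ((1 / 2 : ℝ) : EReal) ≤
        ((inner ℝ ((1 / ‖x - ξ‖) • (x - ξ)) ((1 / ‖y - ξ‖) • (y - ξ)) : ℝ) : EReal) :=
        EReal.coe_le_coe_iff.2 hval
    _ ≤ opening (horn i j) x := by
        unfold opening
        refine le_iSup₂_of_le ξ hproj ?_
        exact le_iSup₂_of_le (f := fun y (_ : y ∈ horn i j \ {ξ}) =>
          ((inner ℝ ((1 / ‖x - ξ‖) • (x - ξ)) ((1 / ‖y - ξ‖) • (y - ξ)) : ℝ) : EReal))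
          y ⟨hyU, hyne⟩ le_rfl
    _ ≤ _ := le_iSup₂_of_le (f := fun x (_ : x ∈ {x : E N | Metric.infEDist x (horn i j) =
          ENNReal.ofReal R}) => opening (horn i j) x) x hinf le_rfl

theorem not_conditionB_horn {i j : Fin N} (hij : i ≠ j) : ¬ ConditionB (horn i j) := by
  rintro ⟨ℓ, hℓ, hlim⟩
  have h1 : ((1 / 2 : ℝ) : EReal) ≤ ℓ :=
    ge_of_tendsto hlim (eventually_atTop.2 ⟨2, fun R hR => opening_large hij hR⟩)
  have h2 := h1.trans hℓ
  have h3 : ((1 / 2 : ℝ) : EReal) ≤ ((0:ℝ) : EReal) := by simpa using h2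
  rw [EReal.coe_le_coe_iff] at h3
  norm_num at h3

end Pool.Agent.Helper66.KPP
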