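import Pool.Agent.Helper66.KPP.Decay

/-!
# The counterexample: main theorem
-/

open MeasureTheory Filter Topology Set

set_option linter.unusedVariables false

namespace Pool.Agent.Helper66.KPP

/-- clamp to `[0,1]` -/
noncomputable def cl (s : ℝ) : ℝ := max 0 (min s 1)

theorem cl_mem (s : ℝ) : cl s ∈ Icc (0:ℝ) 1 :=
  ⟨le_max_left _ _, max_le zero_le_one (min_le_right _ _)⟩

theorem cl_of_mem {s : ℝ} (h : s ∈ Icc (0:ℝ) 1) : cl s = s := by
  unfold cl; rw [min_eq_left h.2, max_eq_right h.1]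

theorem cl_lip (s s' : ℝ) : |cl s - cl s'| ≤ |s - s'| := by
  unfold cl
  refine (abs_max_sub_max_le_max _ _ _ _).trans ?_
  rw [sub_self, abs_zero]
  refine max_le (abs_nonneg _) ?_
  refine (abs_min_sub_min_le_max _ _ _ _).trans ?_
  rw [sub_self, abs_zero]
  exact max_le le_rfl (abs_nonneg _)

theorem IsFisherKPP.low {f : ℝ → ℝ} (hf : IsFisherKPP f) {θ : ℝ} (hθ0 : 0 < θ) (hθ1 : θ < 1) :
    ∃ κ > 0, ∀ s, 0 ≤ s → s ≤ θ → κ * s * (θ - s) ≤ f s := by
  set m := derivWithin f (Icc 0 1) 0 with hm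
  have hm0 : 0 < m := hf.deriv_pos
  have hd : HasDerivWithinAt f m (Icc 0 1) 0 :=
    ((hf.contDiffOn.differentiableOn one_ne_zero) 0 ⟨le_rfl, zero_le_one⟩).hasDerivWithinAt
  rw [hasDerivWithinAt_iff_tendsto_slope] at hd
  have h1 := hd.eventually (lt_mem_nhds (show m / 2 < m by linarith))
  rw [eventually_nhdsWithin_iff, Metric.eventually_nhds_iff] at h1
  obtain ⟨δ, hδ, hδ'⟩ := h1
  set δ' := min (δ / 2) θ with hδ'd
  have hδ'0 : 0 < δ' := by positivity
  have hδ'1 : δ' ≤ δ / 2 := min_le_left _ _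
  have hδ'2 : δ' ≤ θ := min_le_right _ _
  have hcont : ContinuousOn f (Icc δ' θ) := hf.contDiffOn.continuousOn.mono fun s hs =>
    ⟨hδ'0.le.trans hs.1, hs.2.trans hθ1.le⟩
  obtain ⟨s0, hs0, hmin⟩ := isCompact_Icc.exists_isMinOn (nonempty_Icc.2 hδ'2) hcont
  have hfs0 : 0 < f s0 := hf.pos s0 ⟨hδ'0.trans_le hs0.1, hs0.2.trans_lt hθ1⟩
  refine ⟨min (m / 2) (f s0), by positivity, fun s hs hsθ => ?_⟩
  have hk0 : 0 < min (m / 2) (f s0) := by positivity
  rcases lt_or_ge s δ' with h | h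
  · have h2 : min (m / 2) (f s0) * s * (θ - s) ≤ m / 2 * s := by
      have h3 : min (m / 2) (f s0) * s ≤ m / 2 * s := mul_le_mul_of_nonneg_right (min_le_left _ _) hs
      calc min (m / 2) (f s0) * s * (θ - s) ≤ min (m / 2) (f s0) * s * 1 :=
            mul_le_mul_of_nonneg_left (by linarith) (by positivity)
        _ ≤ _ := by rw [mul_one]; exact h3
    refine h2.trans ?_
    rcases hs.eq_or_lt with h0 | h0
    · rw [← h0, hf.zero]; simp
    · have h4 := hδ' (y := s) (by rw [Real.dist_eq, sub_zero, abs_of_pos h0]; linarith)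
        ⟨⟨hs, by linarith⟩, h0.ne'⟩
      rw [slope_def_field, hf.zero, sub_zero, sub_zero, lt_div_iff₀ h0] at h4
      exact h4.le
  · have h2 : f s0 ≤ f s := hmin ⟨h, hsθ⟩
    refine le_trans ?_ h2
    have h3 : s * (θ - s) ≤ 1 := by nlinarith
    calc min (m / 2) (f s0) * s * (θ - s) = min (m / 2) (f s0) * (s * (θ - s)) := by ring
      _ ≤ min (m / 2) (f s0) * 1 := mul_le_mul_of_nonneg_left h3 hk0.le
      _ ≤ f s0 := by rw [mul_one]; exact min_le_right _ _

theorem IsFisherKPP.exists_NL {f : ℝ → ℝ} (hf : IsFisherKPP f) :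
    ∃ L, NL (fun s => f (cl s)) L := by
  have hcont : ContinuousOn (derivWithin f (Icc 0 1)) (Icc 0 1) :=
    hf.contDiffOn.continuousOn_derivWithin (uniqueDiffOn_Icc zero_lt_one) le_rfl
  obtain ⟨C, hC⟩ := isCompact_Icc.exists_bound_of_continuousOn hcont
  have hC0 : 0 ≤ C := (norm_nonneg _).trans (hC 0 ⟨le_rfl, zero_le_one⟩)
  refine ⟨C, hC0, fun s s' => ?_, ?_, ?_, fun θ h0 h1 => ?_⟩
  · have h1 := (convex_Icc (0:ℝ) 1).norm_image_sub_le_of_norm_derivWithin_le
      (hf.contDiffOn.differentiableOn one_ne_zero) hC (cl_mem s') (cl_mem s)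
    rw [Real.norm_eq_abs, Real.norm_eq_abs] at h1
    exact h1.trans (mul_le_mul_of_nonneg_left (cl_lip s s') hC0)
  · rw [cl_of_mem ⟨le_rfl, zero_le_one⟩, hf.zero]
  · rw [cl_of_mem ⟨zero_le_one, le_rfl⟩, hf.one]
  · obtain ⟨κ, hκ, h2⟩ := hf.low h0 h1
    refine ⟨κ, hκ, fun s hs hsθ => ?_⟩
    rw [cl_of_mem ⟨hs, hsθ.trans h1.le⟩]
    exact h2 s hs hsθ

variable {N : ℕ}

theorem heat_eq_P {t : ℝ} (ht : 0 < t) (φ : E N → ℝ) (x : E N) : heat t φ x = P t φ x := by
  rw [P_eq_kernel ht]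
  unfold heat heatKernel hK
  rw [finrank_euclideanSpace_fin]

theorem heat_integral_eq (t : ℝ) (ht : 0 < t) {q r : ℝ → E N → ℝ} (h : ∀ s, 0 < s → q s = r s)
    (x : E N) : ∫ s in (0:ℝ)..t, heat (t - s) (q s) x = Duh 0 r t x := by
  unfold Duh
  refine intervalIntegral.integral_congr_ae ?_
  have hne : ∀ᵐ s : ℝ, s ≠ t := by simp [ae_iff]
  filter_upwards [hne] with s hs hmem
  rw [uIoc_of_le ht.le] at hmem
  have h1 : 0 < t - s := sub_pos.2 (lt_of_le_of_ne hmem.2 hs)
  rw [heat_eq_P h1, h s hmem.1]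
  simp

theorem mild_of_solution {f : ℝ → ℝ} {U : Set (E N)} (hU : MeasurableSet U) {u : ℝ → E N → ℝ}
    (h : IsSolution f U u) :
    Mild (fun s => f (cl s)) (fun t x => if 0 < t then u t x else U.indicator (fun _ => (1:ℝ)) x) := by
  have hmeas : Measurable (Function.uncurry fun (t : ℝ) (x : E N) =>
      if 0 < t then u t x else U.indicator (fun _ => (1:ℝ)) x) := by
    have h1 : Measurable fun p : ℝ × E N =>
        if 0 < p.1 then Function.uncurry u p else U.indicator (fun _ => (1:ℝ)) p.2 :=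
      Measurable.ite (measurableSet_lt measurable_const measurable_fst) h.measurable
        ((ind_meas hU).comp measurable_snd)
    exact h1
  refine ⟨hmeas, fun t x => ?_, fun t ht x => ?_⟩
  · split_ifs with h0
    · exact h.mem_Icc t h0 x
    · exact ind_mem U x
  · simp only [lt_irrefl, if_false, neg_zero, zero_mul, Real.exp_zero, one_mul]
    rcases (show 0 ≤ t from ht).eq_or_lt with h0 | h0
    · subst h0
      simp [P_zero, Duh]
    · rw [if_pos h0, h.duhamel t h0 x, heat_eq_P h0]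
      congr 1
      refine heat_integral_eq t h0 (fun s hs => ?_) x
      funext y
      rw [if_pos hs, cl_of_mem (h.mem_Icc s hs y)]

theorem solution_of_mild {f : ℝ → ℝ} {U : Set (E N)} {u : ℝ → E N → ℝ}
    (h : Mild (fun s => f (cl s)) u) (h0 : u 0 = U.indicator fun _ => (1:ℝ)) : IsSolution f U u := by
  refine ⟨h.meas, fun t _ x => h.mem t x, fun t ht x => ?_⟩
  have h1 := h.duh t ht.le x
  rw [h1, heat_eq_P ht, h0]
  simp only [neg_zero, zero_mul, Real.exp_zero, one_mul]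
  congr 1
  refine (heat_integral_eq t ht (fun s hs => ?_) x).symm
  funext y
  rw [cl_of_mem (h.mem s y)]

theorem oneDim_of_diff {u : ℝ → E N → ℝ} (j : Fin N)
    (hd : ∀ v : E N, v j = 0 → ∀ ε > 0, ∃ t0, ∀ t ≥ t0, ∀ z, |u t z - u t (z + v)| ≤ ε) :
    AsymptoticallyOneDim u := by
  rintro ψ ⟨-, t, x, ht, hconv⟩
  set G : Set (E N) := {y | ∀ R : ℕ, ∀ n : ℕ, y ∈ Metric.ball (0 : E N) (R : ℝ) →
    ‖u (t n) (x n + y) - ψ y‖ₑ ≤ eLpNorm (fun y => u (t n) (x n + y) - ψ y) ⊤
      (volume.restrict (Metric.ball 0 (R:ℝ)))} with hG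
  have hGae : ∀ᵐ y : E N, y ∈ G := by
    simp only [hG, mem_ofPred_eq]
    rw [ae_all_iff]
    intro R
    rw [ae_all_iff]
    intro n
    have h1 := enorm_ae_le_eLpNormEssSup (fun y => u (t n) (x n + y) - ψ y)
      (volume.restrict (Metric.ball (0 : E N) (R:ℝ)))
    rw [ae_restrict_iff' Metric.isOpen_ball.measurableSet] at h1
    filter_upwards [h1] with y hy hmem
    rw [eLpNorm_exponent_top]
    exact hy hmem
  have hGlim : ∀ y ∈ G, Tendsto (fun n => u (t n) (x n + y)) atTop (𝓝 (ψ y)) := by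
    intro y hy
    obtain ⟨R, hR⟩ := exists_nat_gt ‖y‖
    have hmem : y ∈ Metric.ball (0 : E N) (R:ℝ) := by
      rw [Metric.mem_ball, dist_zero_right]; exact hR
    have h1 := hconv (R:ℝ)
    rw [tendsto_iff_edist_tendsto_0]
    refine tendsto_of_tendsto_of_tendsto_of_le_of_le tendsto_const_nhds h1 (fun n => zero_le)
      fun n => ?_
    rw [edist_eq_enorm_sub]
    exact hy R n hmem
  have hGeq : ∀ y ∈ G, ∀ y' ∈ G, y j = y' j → ψ y = ψ y' := by
    intro y hy y' hy' hj
    have hv : (y' - y) j = 0 := by rw [PiLp.sub_apply, hj, sub_self]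
    have h1 : Tendsto (fun n => u (t n) (x n + y) - u (t n) (x n + y')) atTop (𝓝 (ψ y - ψ y')) :=
      (hGlim y hy).sub (hGlim y' hy')
    have h2 : Tendsto (fun n => u (t n) (x n + y) - u (t n) (x n + y')) atTop (𝓝 0) := by
      rw [Metric.tendsto_atTop]
      intro ε hε
      obtain ⟨t0, ht0⟩ := hd (y' - y) hv (ε / 2) (half_pos hε)
      obtain ⟨n0, hn0⟩ := eventually_atTop.1 (ht.eventually_ge_atTop t0)
      refine ⟨n0, fun n hn => ?_⟩
      have h3 := ht0 (t n) (hn0 n hn) (x n + y)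
      rw [show x n + y + (y' - y) = x n + y' by abel] at h3
      rw [Real.dist_eq, sub_zero]
      linarith
    have := tendsto_nhds_unique h1 h2
    linarith
  classical
  refine ⟨ev j, norm_ev j, fun s => if h : ∃ y ∈ G, y j = s then ψ h.choose else 0, ?_⟩
  filter_upwards [hGae] with y hy
  have h : ∃ y' ∈ G, y' j = inner ℝ y (ev j) := ⟨y, hy, (inner_ev y j).symm⟩
  rw [dif_pos h]
  have h1 := h.choose_spec
  refine hGeq y hy _ h1.1 ?_
  rw [h1.2, inner_ev]

/-- **Main theorem.** For every `N ≥ 2` there is a closed connected `U ⊆ ℝᴺ` satisfying (D) and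
violating (B) such that, for every Fisher-KPP nonlinearity `f`, the solution with initial datum
`𝟙_U` exists, is unique, and has asymptotic one-dimensional symmetry. -/
theorem main (N : ℕ) (hN : 2 ≤ N) : ∃ U : Set (E N), IsClosed U ∧ IsConnected U ∧
    ConditionD U ∧ ¬ ConditionB U ∧ ∀ f : ℝ → ℝ, IsFisherKPP f →
      (∃ u, IsSolution f U u) ∧
      (∀ u v, IsSolution f U u → IsSolution f U v → ∀ t > 0, ∀ x, u t x = v t x) ∧
      ∀ u, IsSolution f U u → AsymptoticallyOneDim u := by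
  set i : Fin N := ⟨0, by omega⟩ with hi
  set j : Fin N := ⟨1, by omega⟩ with hj
  have hij : i ≠ j := by simp [hi, hj]
  have hm : MeasurableSet (horn i j) := (isClosed_horn i j).measurableSet
  refine ⟨horn i j, isClosed_horn i j, isConnected_horn hij, conditionD_horn hij,
    not_conditionB_horn hij, fun f hf => ?_⟩
  obtain ⟨L, hL⟩ := hf.exists_NL
  refine ⟨?_, ?_, ?_⟩
  · obtain ⟨u, hu, hu0⟩ := exists_mild hL (ind_meas hm) (ind_mem (horn i j))
    exact ⟨u, solution_of_mild hu hu0⟩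
  · intro u v hu hv t ht x
    have hu' := mild_of_solution hm hu
    have hv' := mild_of_solution hm hv
    have h1 := Mild.le_of_le hL hu' hv' (fun x => by simp) ht.le x
    have h2 := Mild.le_of_le hL hv' hu' (fun x => by simp) ht.le x
    simp only [if_pos (show 0 < t from ht)] at h1 h2
    exact le_antisymm h2 h1
  · intro u hu
    have hu' := mild_of_solution hm hu
    refine oneDim_of_diff j fun v hv ε hε => ?_
    obtain ⟨t0, ht0⟩ := diff_small' hL hij hu' (fun x => by simp) hv hε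
    refine ⟨max t0 1, fun t ht z => ?_⟩
    have h1 := ht0 t ((le_max_left _ _).trans ht) z
    have h2 : 0 < t := lt_of_lt_of_le one_pos ((le_max_right _ _).trans ht)
    simp only [if_pos h2] at h1
    exact h1

end Pool.Agent.Helper66.KPP
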