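import Pool.Agent.Helper66.KPP.Gauss

/-!
# Duhamel identities: restart and change of the exponential rate
-/

open MeasureTheory Filter Topology Set
open scoped RealInnerProductSpace

set_option linter.unusedSectionVars false
set_option linter.style.haveILetI false
set_option linter.unusedVariables false

namespace Pool.Agent.Helper66.KPP

section Real

theorem intble_exp_mul {g : ℝ → ℝ} (hg : Measurable g) {M : ℝ} (hM : ∀ s, |g s| ≤ M)
    {k : ℝ → ℝ} (hk : Continuous k) (b c : ℝ) :
    IntervalIntegrable (fun s => k s * g s) volume b c := by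
  have h1 : IntervalIntegrable (fun s => |k s| * M) volume b c :=
    (hk.abs.mul continuous_const).intervalIntegrable b c
  refine h1.mono_fun' ?_ ?_
  · exact (hk.measurable.mul hg).aestronglyMeasurable
  · refine Eventually.of_forall fun s => ?_
    simp only [norm_mul, Real.norm_eq_abs]
    exact mul_le_mul_of_nonneg_left (hM s) (abs_nonneg _)

theorem integral_ite_ge {h : ℝ → ℝ} {r t : ℝ} (h0 : 0 ≤ r) (hrt : r ≤ t)
    (hh : ∀ b c, IntervalIntegrable h volume b c) :
    ∫ s in (0:ℝ)..t, (if r ≤ s then h s else 0) = ∫ s in r..t, h s := by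
  have e0 : ∫ s in (0:ℝ)..r, (if r ≤ s then h s else 0) = 0 := by
    have : ∫ s in (0:ℝ)..r, (if r ≤ s then h s else 0) = ∫ s in (0:ℝ)..r, (0:ℝ) := by
      refine intervalIntegral.integral_congr_ae ?_
      have hne : ∀ᵐ s : ℝ, s ≠ r := by
        simp [ae_iff]
      filter_upwards [hne] with s hs hmem
      rw [uIoc_of_le h0] at hmem
      rw [if_neg]
      intro hle
      exact hs (le_antisymm hmem.2 hle)
    rw [this]; simp
  have e1 : ∫ s in r..t, (if r ≤ s then h s else 0) = ∫ s in r..t, h s := by
    refine intervalIntegral.integral_congr fun s hs => ?_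
    rw [uIcc_of_le hrt] at hs
    try simp only
    rw [if_pos hs.1]
  have i0 : ∀ b c, IntervalIntegrable (fun s => if r ≤ s then h s else 0) volume b c := by
    intro b c
    exact ⟨(hh b c).1.indicator (measurableSet_Ici (a := r)),
      (hh b c).2.indicator (measurableSet_Ici (a := r))⟩
  have i1 := i0 0 r
  have i2 := i0 r t
  rw [← intervalIntegral.integral_add_adjacent_intervals i1 i2, e0, e1, zero_add]

theorem triangle (a b t : ℝ) (ht : 0 ≤ t) {G : ℝ → ℝ} (hG : Measurable G) {M : ℝ}
    (hM : ∀ r, |G r| ≤ M) :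
    ∫ s in (0:ℝ)..t, (b - a) * Real.exp (-b * (t - s)) *
        ∫ r in (0:ℝ)..s, Real.exp (-a * (s - r)) * G r =
      ∫ r in (0:ℝ)..t, (Real.exp (-a * (t - r)) - Real.exp (-b * (t - r))) * G r := by
  set F : ℝ → ℝ → ℝ := fun s r =>
    if r ≤ s then (b - a) * Real.exp (-b * (t - s)) * (Real.exp (-a * (s - r)) * G r) else 0
    with hF
  have hcont : Continuous fun p : ℝ × ℝ =>
      (b - a) * Real.exp (-b * (t - p.1)) * Real.exp (-a * (p.1 - p.2)) := by fun_prop
  have e1 : ∫ s in (0:ℝ)..t, (b - a) * Real.exp (-b * (t - s)) *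
        ∫ r in (0:ℝ)..s, Real.exp (-a * (s - r)) * G r = ∫ s in (0:ℝ)..t, ∫ r in (0:ℝ)..t, F s r := by
    refine intervalIntegral.integral_congr fun s hs => ?_
    rw [uIcc_of_le ht] at hs
    try simp only
    rw [← intervalIntegral.integral_const_mul,
      ← intervalIntegral.integral_indicator (a₁ := 0) (a₂ := s) (a₃ := t) hs]
    rfl
  have hint : IntegrableOn F.uncurry (uIoc 0 t ×ˢ uIoc 0 t) := by
    obtain ⟨C, hC⟩ : ∃ C, ∀ p ∈ Icc (0:ℝ) t ×ˢ Icc (0:ℝ) t,
        ‖(b - a) * Real.exp (-b * (t - p.1)) * Real.exp (-a * (p.1 - p.2))‖ ≤ C :=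
      (isCompact_Icc.prod isCompact_Icc).exists_bound_of_continuousOn hcont.continuousOn
    refine Measure.integrableOn_of_bounded (M := C * M) ?_ ?_ ?_
    · rw [Measure.volume_eq_prod, Measure.prod_prod]
      refine ENNReal.mul_ne_top ?_ ?_ <;> · rw [uIoc_of_le ht]; exact measure_Ioc_lt_top.ne
    · refine Measurable.aestronglyMeasurable ?_
      have : Measurable fun p : ℝ × ℝ =>
          if p.2 ≤ p.1 then
            (b - a) * Real.exp (-b * (t - p.1)) * (Real.exp (-a * (p.1 - p.2)) * G p.2) else 0 := by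
        refine Measurable.ite (measurableSet_le measurable_snd measurable_fst) ?_ measurable_const
        have hG' : Measurable fun p : ℝ × ℝ => G p.2 := hG.comp measurable_snd
        fun_prop
      exact this
    · refine (ae_restrict_iff' (measurableSet_uIoc.prod measurableSet_uIoc)).2
        (Eventually.of_forall fun p hp => ?_)
      have h1 : p.1 ∈ Icc (0:ℝ) t := by
        have := hp.1; rw [uIoc_of_le ht] at this; exact ⟨this.1.le, this.2⟩
      have h2 : p.2 ∈ Icc (0:ℝ) t := by
        have := hp.2; rw [uIoc_of_le ht] at this; exact ⟨this.1.le, this.2⟩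
      have h3 := hC p ⟨h1, h2⟩
      have hC0 : 0 ≤ C := (norm_nonneg _).trans h3
      have hM0 : 0 ≤ M := (abs_nonneg _).trans (hM 0)
      simp only [Function.uncurry, hF]
      split_ifs with h
      · rw [← mul_assoc, norm_mul]
        exact mul_le_mul h3 (by rw [Real.norm_eq_abs]; exact hM _) (norm_nonneg _) hC0
      · simp only [norm_zero]; positivity
  rw [e1, intervalIntegral_intervalIntegral_swap hint]
  refine intervalIntegral.integral_congr fun r hr => ?_
  rw [uIcc_of_le ht] at hr
  simp only [hF]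
  rw [integral_ite_ge hr.1 hr.2]
  · have e2 : ∀ s ∈ uIcc r t, HasDerivAt
        (fun s => Real.exp (-b * (t - s)) * (Real.exp (-a * (s - r)) * G r))
        ((b - a) * Real.exp (-b * (t - s)) * (Real.exp (-a * (s - r)) * G r)) s := by
      intro s _
      have h1 : HasDerivAt (fun s => Real.exp (-b * (t - s))) (Real.exp (-b * (t - s)) * b) s := by
        have h0 : HasDerivAt (fun s => -b * (t - s)) b s := by
          have := ((hasDerivAt_id s).const_sub t).const_mul (-b)
          simpa using this
        exact h0.exp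
      have h2 : HasDerivAt (fun s => Real.exp (-a * (s - r))) (Real.exp (-a * (s - r)) * (-a)) s := by
        have h0 : HasDerivAt (fun s => -a * (s - r)) (-a) s := by
          have := ((hasDerivAt_id s).sub_const r).const_mul (-a)
          simpa using this
        exact h0.exp
      have h3 := h1.mul (h2.mul_const (G r))
      refine h3.congr_deriv ?_
      ring
    rw [intervalIntegral.integral_eq_sub_of_hasDerivAt e2]
    · simp only [sub_self, mul_zero, Real.exp_zero, one_mul]
      ring
    · refine Continuous.intervalIntegrable ?_ _ _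
      fun_prop
  · intro b' c'
    refine Continuous.intervalIntegrable ?_ _ _
    fun_prop

end Real

section Duhamel

variable {E : Type*} [NormedAddCommGroup E] [InnerProductSpace ℝ E] [FiniteDimensional ℝ E]
  [MeasurableSpace E] [BorelSpace E]

/-- bounded measurable time-dependent functions -/
def BM (q : ℝ → E → ℝ) : Prop :=
  Measurable (Function.uncurry q) ∧ ∃ M, ∀ s y, |q s y| ≤ M

theorem BM.meas {q : ℝ → E → ℝ} (h : BM q) (s : ℝ) : Measurable (q s) :=
  h.1.comp (measurable_const.prodMk measurable_id)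

theorem BM.add {q r : ℝ → E → ℝ} (hq : BM q) (hr : BM r) : BM fun s y => q s y + r s y := by
  obtain ⟨M, hM⟩ := hq.2
  obtain ⟨M', hM'⟩ := hr.2
  exact ⟨hq.1.add hr.1, M + M', fun s y => (abs_add_le _ _).trans (add_le_add (hM s y) (hM' s y))⟩

theorem BM.const_mul {q : ℝ → E → ℝ} (hq : BM q) (c : ℝ) : BM fun s y => c * q s y := by
  obtain ⟨M, hM⟩ := hq.2
  refine ⟨hq.1.const_mul c, |c| * M, fun s y => ?_⟩
  rw [abs_mul]
  exact mul_le_mul_of_nonneg_left (hM s y) (abs_nonneg _)

theorem BM.sub {q r : ℝ → E → ℝ} (hq : BM q) (hr : BM r) : BM fun s y => q s y - r s y := by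
  have := hq.add (hr.const_mul (-1))
  simpa [sub_eq_add_neg] using this

theorem BM.measurable_P {q : ℝ → E → ℝ} (hq : BM q) {τ : ℝ → ℝ} (hτ : Measurable τ) (x : E) :
    Measurable fun s => P (τ s) (q s) x :=
  KPP.measurable_P hτ hq.1 measurable_const

theorem BM.intble {q : ℝ → E → ℝ} (hq : BM q) {τ : ℝ → ℝ} (hτ : Measurable τ) (x : E)
    {k : ℝ → ℝ} (hk : Continuous k) (b c : ℝ) :
    IntervalIntegrable (fun s => k s * P (τ s) (q s) x) volume b c := by
  obtain ⟨M, hM⟩ := hq.2
  exact intble_exp_mul (hq.measurable_P hτ x) (fun s => P_abs_le (hM s) _ _) hk b c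

/-- the Duhamel integral with rate `a` -/
noncomputable def Duh (a : ℝ) (q : ℝ → E → ℝ) (t : ℝ) (x : E) : ℝ :=
  ∫ s in (0:ℝ)..t, Real.exp (-a * (t - s)) * P (t - s) (q s) x

theorem P_Duh (a : ℝ) {q : ℝ → E → ℝ} (hq : BM q) {s τ : ℝ} (hs : 0 ≤ s) (hτ : 0 ≤ τ) (x : E) :
    P τ (Duh a q s) x =
      ∫ r in (0:ℝ)..s, Real.exp (-a * (s - r)) * P (τ + s - r) (q r) x := by
  obtain ⟨M, hM⟩ := hq.2
  have hmeas : Measurable fun p : ℝ × E =>
      Real.exp (-a * (s - p.1)) * P (s - p.1) (q p.1) (x + √(2 * τ) • p.2) := by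
    refine Measurable.mul (by fun_prop) ?_
    refine KPP.measurable_P (by fun_prop) ?_ (by fun_prop)
    exact hq.1.comp ((measurable_fst.comp measurable_fst).prodMk measurable_snd)
  have hint : Integrable (Function.uncurry fun (r : ℝ) (z : E) =>
      Real.exp (-a * (s - r)) * P (s - r) (q r) (x + √(2 * τ) • z))
      ((volume.restrict (uIoc 0 s)).prod (gau E)) := by
    have h1 : Integrable (fun r : ℝ => Real.exp (-a * (s - r)) * M) (volume.restrict (uIoc 0 s)) := by
      rw [uIoc_of_le hs]
      exact ((by fun_prop : Continuous fun r : ℝ => Real.exp (-a * (s - r)) * M)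
        |>.integrableOn_Ioc)
    refine (h1.comp_fst (gau E)).mono' hmeas.aestronglyMeasurable (Eventually.of_forall fun p => ?_)
    simp only [Function.uncurry, norm_mul, Real.norm_eq_abs, Real.abs_exp]
    exact mul_le_mul_of_nonneg_left (P_abs_le (hM _) _ _) (Real.exp_pos _).le
  have h2 := intervalIntegral_integral_swap hint
  have e1 : P τ (Duh a q s) x =
      ∫ z, (∫ r in (0:ℝ)..s, Real.exp (-a * (s - r)) * P (s - r) (q r) (x + √(2 * τ) • z))
        ∂(gau E) := rfl
  rw [e1, ← h2]
  refine intervalIntegral.integral_congr fun r hr => ?_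
  rw [uIcc_of_le hs] at hr
  try simp only
  rw [integral_const_mul]
  congr 1
  have := P_comp (E := E) (hq.meas r) (hM r) (s := τ) (t := s - r) hτ (by linarith [hr.2]) x
  rw [show τ + s - r = τ + (s - r) by ring, ← this]
  rfl

/-- `w` is given by the Duhamel formula with rate `a`, initial value `w0` and source `q`. -/
def IsDuh (a : ℝ) (w0 : E → ℝ) (q w : ℝ → E → ℝ) : Prop :=
  ∀ t ≥ 0, ∀ x, w t x = Real.exp (-a * t) * P t w0 x + Duh a q t x

theorem Duh_bdd (a : ℝ) {q : ℝ → E → ℝ} (hq : BM q) (t : ℝ) : ∃ M, ∀ x, |Duh a q t x| ≤ M := by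
  obtain ⟨M, hM⟩ := hq.2
  have hcont : Continuous fun s => Real.exp (-a * (t - s)) := by fun_prop
  obtain ⟨C, hC⟩ := (isCompact_uIcc (a := 0) (b := t)).exists_bound_of_continuousOn hcont.continuousOn
  refine ⟨C * M * |t - 0|, fun x => ?_⟩
  have := intervalIntegral.norm_integral_le_of_norm_le_const (a := 0) (b := t) (C := C * M)
    (f := fun s => Real.exp (-a * (t - s)) * P (t - s) (q s) x) (fun s hs => by
      rw [norm_mul]
      have h1 := hC s (uIoc_subset_uIcc hs)
      refine mul_le_mul h1 ?_ (norm_nonneg _) ((norm_nonneg _).trans h1)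
      rw [Real.norm_eq_abs]
      exact P_abs_le (hM _) _ _)
  exact this

theorem measurable_Duh (a : ℝ) {q : ℝ → E → ℝ} (hq : BM q) :
    Measurable (Function.uncurry fun t x => if 0 ≤ t then Duh a q t x else 0) := by
  have h1 : Measurable fun p : (ℝ × E) × ℝ =>
      if 0 < p.2 ∧ p.2 ≤ p.1.1 then
        Real.exp (-a * (p.1.1 - p.2)) * P (p.1.1 - p.2) (q p.2) p.1.2 else 0 := by
    refine Measurable.ite ?_ (Measurable.mul (by fun_prop) ?_) measurable_const
    · exact (measurableSet_lt measurable_const measurable_snd).inter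
        (measurableSet_le measurable_snd (measurable_fst.comp measurable_fst))
    · refine KPP.measurable_P (by fun_prop) ?_ (by fun_prop)
      exact hq.1.comp ((measurable_snd.comp measurable_fst).prodMk measurable_snd)
  have h2 : Measurable fun p : ℝ × E => ∫ s, (if 0 < s ∧ s ≤ p.1 then
        Real.exp (-a * (p.1 - s)) * P (p.1 - s) (q s) p.2 else 0) :=
    (h1.stronglyMeasurable.integral_prod_right').measurable
  have h3 : (Function.uncurry fun t x => if 0 ≤ t then Duh a q t x else 0) =
      fun p : ℝ × E => if 0 ≤ p.1 then ∫ s, (if 0 < s ∧ s ≤ p.1 then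
        Real.exp (-a * (p.1 - s)) * P (p.1 - s) (q s) p.2 else 0) else 0 := by
    funext p
    obtain ⟨t, x⟩ := p
    simp only [Function.uncurry]
    split_ifs with h
    · unfold Duh
      rw [intervalIntegral.integral_of_le h, ← integral_indicator measurableSet_Ioc]
      refine integral_congr_ae (Eventually.of_forall fun s => ?_)
      simp only [indicator, mem_Ioc]
    · rfl
  rw [h3]
  exact Measurable.ite (measurableSet_le measurable_const measurable_fst) h2 measurable_const

theorem measurable_Duh_slice (a : ℝ) {q : ℝ → E → ℝ} (hq : BM q) {t : ℝ} (ht : 0 ≤ t) :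
    Measurable (Duh a q t) := by
  have := (measurable_Duh a hq).comp (measurable_const.prodMk measurable_id : Measurable fun x : E => (t, x))
  have h2 : (Function.uncurry fun t x => if 0 ≤ t then Duh a q t x else 0) ∘ (fun x : E => (t, x)) =
      Duh a q t := by
    funext x
    simp [Function.comp, ht]
  rwa [h2] at this

theorem IsDuh.P_eq {a : ℝ} {w0 : E → ℝ} {q w : ℝ → E → ℝ} (h : IsDuh a w0 q w)
    (hw0 : Measurable w0) {M0 : ℝ} (hM0 : ∀ x, |w0 x| ≤ M0) (hq : BM q)
    {s τ : ℝ} (hs : 0 ≤ s) (hτ : 0 ≤ τ) (x : E) :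
    P τ (w s) x = Real.exp (-a * s) * P (τ + s) w0 x +
      ∫ r in (0:ℝ)..s, Real.exp (-a * (s - r)) * P (τ + s - r) (q r) x := by
  have e : w s = fun y => Real.exp (-a * s) * P s w0 y + Duh a q s y := by
    funext y; exact h s hs y
  obtain ⟨MD, hMD⟩ := Duh_bdd a hq s
  have hPm : Measurable (P s w0) :=
    KPP.measurable_P (α := E) measurable_const (hw0.comp measurable_snd) measurable_id
  rw [e, P_add (M := |Real.exp (-a * s)| * M0) (M' := MD) (hPm.const_mul _)
    (measurable_Duh_slice a hq hs) _ hMD, P_const_mul, P_comp hw0 hM0 hτ hs, P_Duh a hq hs hτ]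
  intro y
  rw [abs_mul]
  exact mul_le_mul_of_nonneg_left (P_abs_le hM0 _ _) (abs_nonneg _)

theorem IsDuh.restart {a : ℝ} {w0 : E → ℝ} {q w : ℝ → E → ℝ} (h : IsDuh a w0 q w)
    (hw0 : Measurable w0) {M0 : ℝ} (hM0 : ∀ x, |w0 x| ≤ M0) (hq : BM q)
    {s : ℝ} (hs : 0 ≤ s) :
    IsDuh a (w s) (fun r => q (s + r)) (fun r => w (s + r)) := by
  intro t ht x
  show w (s + t) x = _
  rw [h.P_eq hw0 hM0 hq hs ht x, h (s + t) (by positivity) x]
  have e1 : Duh a q (s + t) x = (∫ r in (0:ℝ)..s, Real.exp (-a * (s + t - r)) * P (s + t - r) (q r) x)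
      + ∫ r in s..(s + t), Real.exp (-a * (s + t - r)) * P (s + t - r) (q r) x := by
    unfold Duh
    rw [intervalIntegral.integral_add_adjacent_intervals]
    · exact hq.intble (by fun_prop) x (by fun_prop) _ _
    · exact hq.intble (by fun_prop) x (by fun_prop) _ _
  have e2 : ∫ r in s..(s + t), Real.exp (-a * (s + t - r)) * P (s + t - r) (q r) x =
      Duh a (fun r => q (s + r)) t x := by
    unfold Duh
    have := intervalIntegral.integral_comp_add_left (a := 0) (b := t)
      (fun r => Real.exp (-a * (s + t - r)) * P (s + t - r) (q r) x) s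
    rw [add_zero] at this
    rw [← this]
    refine intervalIntegral.integral_congr fun r _ => ?_
    try simp only
    rw [show s + t - (s + r) = t - r by ring]
  have e3 : Real.exp (-a * t) * ∫ r in (0:ℝ)..s, Real.exp (-a * (s - r)) * P (t + s - r) (q r) x =
      ∫ r in (0:ℝ)..s, Real.exp (-a * (s + t - r)) * P (s + t - r) (q r) x := by
    rw [← intervalIntegral.integral_const_mul]
    refine intervalIntegral.integral_congr fun r _ => ?_
    try simp only
    rw [← mul_assoc, ← Real.exp_add, show -a * t + -a * (s - r) = -a * (s + t - r) by ring,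
      add_comm t s]
  have e4 : Real.exp (-a * t) * Real.exp (-a * s) = Real.exp (-a * (s + t)) := by
    rw [← Real.exp_add]; congr 1; ring
  rw [e1, e2]
  rw [add_comm t s] at e3 ⊢
  linear_combination (-P (s + t) w0 x) * e4 - e3

theorem IsDuh.shift {a : ℝ} (b : ℝ) {w0 : E → ℝ} {q w : ℝ → E → ℝ} (h : IsDuh a w0 q w)
    (hw0 : Measurable w0) {M0 : ℝ} (hM0 : ∀ x, |w0 x| ≤ M0) (hq : BM q) (hw : BM w) :
    IsDuh b w0 (fun s y => q s y + (b - a) * w s y) w := by
  intro t ht x
  obtain ⟨M, hM⟩ := hq.2
  obtain ⟨M', hM'⟩ := hw.2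
  have e1 : Duh b (fun s y => q s y + (b - a) * w s y) t x =
      Duh b q t x + ∫ s in (0:ℝ)..t, (b - a) * Real.exp (-b * (t - s)) * P (t - s) (w s) x := by
    unfold Duh
    rw [← intervalIntegral.integral_add]
    · refine intervalIntegral.integral_congr fun s _ => ?_
      try simp only
      rw [P_add (hq.meas s) ((hw.meas s).const_mul _) (hM s) (M' := |b - a| * M') _, P_const_mul]
      · ring
      · intro y
        rw [abs_mul]
        exact mul_le_mul_of_nonneg_left (hM' s y) (abs_nonneg _)
    · exact hq.intble (by fun_prop) x (by fun_prop) _ _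
    · exact hw.intble (by fun_prop) x (by fun_prop) _ _
  have e2 : ∫ s in (0:ℝ)..t, (b - a) * Real.exp (-b * (t - s)) * P (t - s) (w s) x =
      (∫ s in (0:ℝ)..t, (b - a) * Real.exp (-b * (t - s)) * Real.exp (-a * s)) * P t w0 x +
      ∫ s in (0:ℝ)..t, (b - a) * Real.exp (-b * (t - s)) *
        ∫ r in (0:ℝ)..s, Real.exp (-a * (s - r)) * P (t - r) (q r) x := by
    rw [← intervalIntegral.integral_mul_const, ← intervalIntegral.integral_add]
    · refine intervalIntegral.integral_congr fun s hs => ?_
      rw [uIcc_of_le ht] at hs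
      try simp only
      rw [h.P_eq hw0 hM0 hq hs.1 (by linarith [hs.2] : 0 ≤ t - s) x,
        show t - s + s = t by ring]
      ring
    · refine Continuous.intervalIntegrable ?_ _ _
      fun_prop
    · have hc : Continuous fun s : ℝ => ∫ r in (0:ℝ)..s, Real.exp (a * r) * P (t - r) (q r) x := by
        refine intervalIntegral.continuous_primitive (fun b' c' => ?_) 0
        exact hq.intble (by fun_prop) x (by fun_prop) _ _
      have hc2 : Continuous fun s : ℝ => (b - a) * Real.exp (-b * (t - s)) *
          (Real.exp (-a * s) * ∫ r in (0:ℝ)..s, Real.exp (a * r) * P (t - r) (q r) x) := by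
        fun_prop
      refine (hc2.intervalIntegrable 0 t).congr ?_
      intro s _
      try simp only
      rw [← intervalIntegral.integral_const_mul]
      congr 1
      refine intervalIntegral.integral_congr fun r _ => ?_
      try simp only
      rw [← mul_assoc, ← Real.exp_add]
      congr 2
      ring
  have e3 : ∫ s in (0:ℝ)..t, (b - a) * Real.exp (-b * (t - s)) * Real.exp (-a * s) =
      Real.exp (-a * t) - Real.exp (-b * t) := by
    have hd : ∀ s ∈ uIcc 0 t, HasDerivAt (fun s => Real.exp (-b * (t - s)) * Real.exp (-a * s))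
        ((b - a) * Real.exp (-b * (t - s)) * Real.exp (-a * s)) s := by
      intro s _
      have h1 : HasDerivAt (fun s => Real.exp (-b * (t - s))) (Real.exp (-b * (t - s)) * b) s := by
        have h0 : HasDerivAt (fun s => -b * (t - s)) b s := by
          have := ((hasDerivAt_id s).const_sub t).const_mul (-b)
          simpa using this
        exact h0.exp
      have h2 : HasDerivAt (fun s => Real.exp (-a * s)) (Real.exp (-a * s) * (-a)) s := by
        have h0 : HasDerivAt (fun s => -a * s) (-a) s := by
          have := (hasDerivAt_id s).const_mul (-a)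
          simpa using this
        exact h0.exp
      have h3 := h1.mul h2
      refine h3.congr_deriv ?_
      ring
    rw [intervalIntegral.integral_eq_sub_of_hasDerivAt hd]
    · simp
    · refine Continuous.intervalIntegrable ?_ _ _
      fun_prop
  have e4 := triangle a b t ht (hq.measurable_P (τ := fun r => t - r) (by fun_prop) x)
    (fun r => P_abs_le (hM r) _ _)
  have e5 : ∫ r in (0:ℝ)..t, (Real.exp (-a * (t - r)) - Real.exp (-b * (t - r))) * P (t - r) (q r) x =
      Duh a q t x - Duh b q t x := by
    unfold Duh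
    rw [← intervalIntegral.integral_sub]
    · refine intervalIntegral.integral_congr fun r _ => ?_
      try simp only
      ring
    · exact hq.intble (by fun_prop) x (by fun_prop) _ _
    · exact hq.intble (by fun_prop) x (by fun_prop) _ _
  rw [e1, e2, e3, e4, e5, h t ht x]
  ring

end Duhamel

end Pool.Agent.Helper66.KPP
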